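import Pool.Agent.helper32.EXB.Spec

/-!
# Row CNN of project EXC (MP_561ff4_al): connectedness of the extremal points
-/

set_option autoImplicit false
set_option linter.unusedVariables false

open Finset

namespace Pool.Agent.EXA

open Pool.Agent.EXC

/-- closed under scalars and steps of type 1 -/
def CNN_Cl {n : ℕ} (C : Matrix (Fin n) (Fin n) ℤ) [IsC C] {F : Type} [Field F] (θ : Fin n → ℤ) (P : Lm C F → Prop) : Prop :=
  (∀ a (c : F), c ≠ 0 → P a → P (c • a)) ∧ (∀ a b, Tp C θ a b 1 → P a → P b) ∧ (∀ a b, Tp C θ a b 1 → P b → P a)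

/-- every closed predicate which holds for `a` holds for `b` -/
def CNN_R {n : ℕ} (C : Matrix (Fin n) (Fin n) ℤ) [IsC C] {F : Type} [Field F] (θ : Fin n → ℤ) (a b : Lm C F) : Prop :=
  ∀ P : Lm C F → Prop, CNN_Cl C θ P → P a → P b

section
variable {n : ℕ} {C : Matrix (Fin n) (Fin n) ℤ} [IsC C] {F : Type} [Field F] {θ : Fin n → ℤ}

theorem CNN_refl (a : Lm C F) : CNN_R C θ a a := fun _ _ h => h

theorem CNN_trans {a b c : Lm C F} (h : CNN_R C θ a b) (h' : CNN_R C θ b c) : CNN_R C θ a c :=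
  fun P hP ha => h' P hP (h P hP ha)

theorem CNN_symm {a b : Lm C F} (h : CNN_R C θ a b) : CNN_R C θ b a := by
  intro P hP hb
  by_contra ha
  refine h (fun v => ¬ P v) ⟨fun v c hc hv hcv => hv ?_, fun v w hvw hv hw => hv (hP.2.2 v w hvw hw),
    fun v w hvw hw hv => hw (hP.2.1 v w hvw hv)⟩ ha hb
  have := hP.1 (c • v) c⁻¹ (inv_ne_zero hc) hcv
  rwa [smul_smul, inv_mul_cancel₀ hc, one_smul] at this

theorem CNN_smul (a : Lm C F) {c : F} (hc : c ≠ 0) : CNN_R C θ a (c • a) := fun _ hP ha => hP.1 a c hc ha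

theorem CNN_tp {a b : Lm C F} (h : Tp C θ a b 1) : CNN_R C θ a b := fun _ hP ha => hP.2.1 a b h ha

end

theorem CNN (hEXF : EXF_stmt) (hACT : ACT_stmt) (hNBR : NBR_stmt) (hWPG : WPG_stmt) (hRFL : RFL_stmt) (hTPF : TPF_stmt) : CNN_stmt := by
  intro n C _ F _ j0 θ δ hE P hP1 hP2 hP3 ha0 b hb
  obtain ⟨hn1, hn2⟩ := hNBR n C j0 θ δ hE
  have hth := hE.th2
  -- invariance under the group
  have hmap : ∀ k ∈ GE C F, ∀ a b : Lm C F, CNN_R C θ a b → CNN_R C θ (k a) (k b) := by
    intro k hk a b hab Q hQ ha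
    refine hab (fun v => Q (k v)) ⟨fun v c hc hv => ?_, fun v w hvw hv => ?_, fun v w hvw hv => ?_⟩ ha
    · show Q (k (c • v))
      rw [map_smul]
      exact hQ.1 _ c hc hv
    · exact hQ.2.1 _ _ ((hTPF n C F θ hth hn1 v w 1 hvw).2.2.1 k hk) hv
    · exact hQ.2.2 _ _ ((hTPF n C F θ hth hn1 v w 1 hvw).2.2.1 k hk) hv
  -- the product is preserved along a chain of reflections
  have hpr : ∀ p q : (Fin n → ℤ) × (Fin n → ℤ), WP C p q → ip C q.1 q.2 = ip C p.1 p.2 ∧ ip C q.1 q.1 = ip C p.1 p.1 := by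
    intro p q h
    induction h with
    | refl => exact ⟨rfl, rfl⟩
    | tail _ hs ih =>
      obtain ⟨i, hi⟩ := hs
      rw [hi]
      exact ⟨((hRFL n C i _ _).1).trans ih.1, ((hRFL n C i _ _).1).trans ih.2⟩
  have hs0 : ∀ s : ℤ, (s = 1 ∨ s = -1) → (s : F) ≠ 0 := by
    rintro s (h | h) <;> simp [h]
  -- roots with product 1
  have hone : ∀ α β, ip C α α = 2 → ip C β β = 2 → ip C α β = 1 → CNN_R C θ (E C α : Lm C F) (E C β) := by
    intro α β hα hβ hαβ
    obtain ⟨β', hβ', hw⟩ := hn2 α θ β hα hth hβ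
    obtain ⟨g, hg, s, s', hs, hs', e1, e2⟩ := hWPG n C F hn1 α β θ β' hα hβ hw
    have h1 := (hpr _ _ hw).1
    simp only at h1
    exact CNN_tp ⟨g, hg, β', hβ', h1.trans hαβ, (s : F), (s' : F), hs0 s hs, hs0 s' hs', e1, e2⟩
  have hneg : ∀ α, ip C α α = 2 → CNN_R C θ (E C α : Lm C F) (E C (-α)) := by
    intro α hα
    obtain ⟨β, hβ, hαβ⟩ := hn1 α hα
    have hab : ip C (α + β) (α + β) = 2 := (add_root_iff hα hβ).2 hαβ
    refine CNN_trans (hone α (α + β) hα hab ?_) (CNN_trans (hone (α + β) β hab hβ ?_) (hone β (-α) hβ (neg_root C hα) ?_))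
    · rw [ip_add_right, hα, hαβ]; norm_num
    · rw [ip_add_left, hβ, hαβ]; norm_num
    · rw [ip_neg_right, ip_comm, hαβ]; norm_num
  have hrf : ∀ (i : Fin n) (α : Fin n → ℤ), ip C α α = 2 → CNN_R C θ (E C α : Lm C F) (E C (rf C i α)) := by
    intro i α hα
    have hi := ip_sr_self C i
    have h1 := ip_abs_le hα hi
    have hr : ip C (rf C i α) (rf C i α) = 2 := ((hRFL n C i α α).1).trans hα
    have hp : ip C α (rf C i α) = 2 - ip C α (sr i) * ip C α (sr i) := by
      rw [rf, ip_sub_right, ip_smul_right, hα]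
    have h5 : ip C α (sr i) = -2 ∨ ip C α (sr i) = -1 ∨ ip C α (sr i) = 0 ∨ ip C α (sr i) = 1 ∨ ip C α (sr i) = 2 := by omega
    rcases h5 with h | h | h | h | h
    · have : rf C i α = -α := by
        refine eq_neg_of_ip_eq_neg_two hα hr ?_
        rw [hp, h]; norm_num
      rw [this]; exact hneg α hα
    · refine hone _ _ hα hr ?_
      rw [hp, h]; norm_num
    · have : rf C i α = α := by rw [rf, h, zero_smul, sub_zero]
      rw [this]; exact CNN_refl _
    · refine hone _ _ hα hr ?_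
      rw [hp, h]; norm_num
    · have : rf C i α = -α := by
        refine eq_neg_of_ip_eq_neg_two hα hr ?_
        rw [hp, h]; norm_num
      rw [this]; exact hneg α hα
  have hroot : ∀ α β, ip C α α = 2 → ip C β β = 2 → CNN_R C θ (E C α : Lm C F) (E C β) := by
    intro α β hα hβ
    obtain ⟨β', _, hw⟩ := hn2 α β α hα hβ hα
    have key : ∀ q : (Fin n → ℤ) × (Fin n → ℤ), WP C (α, α) q → ip C q.1 q.1 = 2 ∧ CNN_R C θ (E C α : Lm C F) (E C q.1) := by
      intro q h
      induction h with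
      | refl => exact ⟨hα, CNN_refl _⟩
      | tail _ hs ih =>
        obtain ⟨i, hi⟩ := hs
        rw [hi]
        exact ⟨((hRFL n C i _ _).1).trans ih.1, CNN_trans ih.2 (hrf i _ ih.1)⟩
    exact (key _ hw).2
  -- group elements
  have hgrp : ∀ g ∈ GE C F, ∀ α, ip C α α = 2 → CNN_R C θ (E C α : Lm C F) (g (E C α)) := by
    intro g hg
    induction hg using Subgroup.closure_induction with
    | mem g hg =>
      intro α hα
      have hgm : g ∈ GE C F := Subgroup.subset_closure hg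
      obtain ⟨γ, hγ, t, ht⟩ := hg
      have e : g (E C γ) = E C γ := by
        rw [ht (E C γ)]
        exact (hACT n C F γ t hγ).1 γ hγ (by rw [hγ]; norm_num)
      have h1 := hmap g hgm _ _ (hroot α γ hα hγ)
      rw [e] at h1
      exact CNN_trans (hroot α γ hα hγ) (CNN_symm h1)
    | one => intro α _; exact CNN_refl _
    | mul g h hg _ ihg ihh =>
      intro α hα
      have h1 := hmap g hg _ _ (ihh α hα)
      exact CNN_trans (ihg α hα) h1
    | inv g hg ih =>
      intro α hα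
      have h1 := hmap g⁻¹ (inv_mem hg) _ _ (ih α hα)
      have e : g⁻¹ (g (E C α)) = (E C α : Lm C F) := by
        show g.symm (g (E C α)) = _
        exact g.symm_apply_apply _
      rw [e] at h1
      exact CNN_symm h1
  obtain ⟨a, ⟨g, hg, α, hα, c, hc, rfl⟩, hPa⟩ := ha0
  obtain ⟨g', hg', α', hα', c', hc', rfl⟩ := hb
  have h1 : CNN_R C θ (c • g (E C α)) (E C α : Lm C F) := CNN_symm (CNN_trans (hgrp g hg α hα) (CNN_smul _ hc))
  have h2 : CNN_R C θ (E C α' : Lm C F) (c' • g' (E C α')) := CNN_trans (hgrp g' hg' α' hα') (CNN_smul _ hc')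
  exact (CNN_trans h1 (CNN_trans (hroot α α' hα hα') h2)) P ⟨hP1, hP2, hP3⟩ hPa

end Pool.Agent.EXA
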