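import Pool.Agent.helper32.EXB.Spec

/-!
# Project EXC (MP_561ff4_al): row PLN, not all points go to opposite points
-/

set_option autoImplicit false

open Finset

namespace Pool.Agent.EXA

open Pool.Agent.EXC

section
variable {n : ℕ} (C : Matrix (Fin n) (Fin n) ℤ) [IsC C] {F : Type} [Field F]

theorem PLN_xe_smul (a : Lm C F) (c t : F) (v : Lm C F) : xe C (c • a) t v = xe C a (c * t) v := by
  unfold xe
  rw [br_smul_left, fm_smul_left, smul_smul, smul_smul]
  congr 1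
  · congr 2
    ring
  · congr 1
    ring

theorem PLN_isX_smul {a : Lm C F} {s : F} {g : Lm C F ≃ₗ[F] Lm C F} (h : IsX C a s g) : IsX C (s • a) 1 g := by
  intro v
  rw [h v, PLN_xe_smul, mul_one]

theorem PLN_au {g : Lm C F ≃ₗ[F] Lm C F} (hg : Au C g) (a : Lm C F) (t : F) (v : Lm C F) :
    g (xe C a t v) = xe C (g a) t (g v) := by
  unfold xe
  rw [map_add, map_add, map_smul, map_smul, hg.br, hg.fm]

end

theorem PLN (hCL3 : CL3_stmt) (hCOR : COR_stmt) (hIMX : IMX_stmt) (hIMT : IMT_stmt) (hTPF : TPF_stmt)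
    (hPCL : PCL_stmt) (hCOL : COL_stmt) (hUNQ : UNQ_stmt) (hEXF : EXF_stmt) (hACT : ACT_stmt)
    (hNBR : NBR_stmt) : PLN_stmt := by
  intro n C _ F _ _ j0 θ δ hE x hx
  have hβ := (hNBR n C j0 θ δ hE).1
  obtain ⟨hAu, hExE, hExf, -⟩ := hEXF n C F hβ
  obtain ⟨ι, hιinj, hιEx, hιTp, hιx⟩ := hCL3 n C F j0 θ δ hE
  obtain ⟨hI1, -, hI3, hI4⟩ := hIMX n C F j0 θ δ hE x hx
  -- sums of two vectors of type 1
  have hsum : ∀ a b : Lm C F, Tp C θ a b 1 → Ex C (a + b) ∧ ∀ u, xe C a 1 (xe C b 1 u) = xe C (a + b) 1 u := by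
    intro a b hab
    obtain ⟨k, hk, β, hβ2, hθβ, c, c', hc, hc', hka, hkb⟩ := hab
    have hβθ : ip C β θ = 1 := by rw [ip_comm]; exact hθβ
    have hγ : ip C (θ - β) (θ - β) = 2 := (sub_root_iff hE.th2 hβ2).2 hθβ
    have hγβ : ip C (θ - β) β = -1 := by rw [ip_sub_left, hθβ, hβ2]; norm_num
    have hsumk : k (a + b) = c • E C θ + c' • E C β := by rw [map_add, hka, hkb]
    have hExk : Ex C (k (a + b)) := by
      rw [hsumk]
      obtain ⟨-, -, -, -, hX, -⟩ := hExf (E C (θ - β)) (hExE _ hγ)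
      set ε : F := (sg C (θ - β) β : F) with hε
      obtain ⟨h, hh, hhX⟩ := hX (ε * c / c')
      refine ⟨h, hh, β, hβ2, c', hc', ?_⟩
      rw [hhX, (hACT n C F (θ - β) _ hγ).2.1 β hβ2 hγβ, sub_add_cancel, ← hε, smul_add, smul_smul, add_comm]
      congr 2
      have h2 : ε * ε = 1 := sg_sq C _ _
      field_simp
      linear_combination -h2
    have hkinv : k⁻¹ ∈ GE C F := Subgroup.inv_mem _ hk
    refine ⟨?_, ?_⟩
    · have h3 := (hExf _ hExk).2.2.1 k⁻¹ hkinv
      have h4 : k⁻¹ (k (a + b)) = a + b := LinearEquiv.symm_apply_apply k (a + b)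
      rwa [h4] at h3
    · intro u
      apply k.injective
      rw [PLN_au C (hAu k hk), PLN_au C (hAu k hk), PLN_au C (hAu k hk), hsumk, hka, hkb,
        ((hCOL n C F θ β hE.th2 hβ2).1 hθβ).1, PLN_xe_smul, PLN_xe_smul]
  -- the map `φ`
  have hφ : ∀ v : Fin 3 → F, ∃ w : Lm C F, (v ≠ 0 → Ex C w ∧ Im C x (ι v) w) ∧ (v = 0 → w = 0) ∧
      ∃ T : EG C F, IsX C (ι v) 1 (T : Lm C F ≃ₗ[F] Lm C F) ∧ IsX C w 1 ((x T : EG C F) : Lm C F ≃ₗ[F] Lm C F) := by
    intro v
    by_cases hv : v = 0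
    · refine ⟨0, fun h => absurd hv h, fun _ => rfl, 1, ?_, ?_⟩
      · intro u
        rw [hv, map_zero]
        simp [xe]
      · intro u
        rw [map_one]
        simp [xe]
    · obtain ⟨b, hb, hIm⟩ := hI1 (ι v) (hιEx v hv)
      obtain ⟨-, -, -, hExsm, hX, -, hXinj, -, -⟩ := hExf (ι v) (hιEx v hv)
      obtain ⟨T, hT, hTX⟩ := hX 1
      obtain ⟨s, hs⟩ := (hIm ⟨T, hT⟩).1 ⟨1, hTX⟩
      have hs0 : s ≠ 0 := by
        intro hs0
        have h1 : x ⟨T, hT⟩ = 1 := by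
          apply Subtype.ext
          apply LinearEquiv.ext
          intro u
          rw [hs u, hs0]
          simp [xe]
        have h2 : (⟨T, hT⟩ : EG C F) = 1 := by
          have := x.injective (h1.trans (map_one x).symm)
          exact this
        have h3 : T = 1 := congrArg Subtype.val h2
        have h4 : IsX C (ι v) 0 T := by
          intro u
          rw [h3]
          simp [xe]
        exact one_ne_zero (hXinj _ _ _ hTX h4)
      refine ⟨s • b, fun _ => ⟨?_, ?_⟩, fun h => absurd h hv, ⟨T, hT⟩, hTX, PLN_isX_smul C hs⟩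
      · exact (hExf b hb).2.2.2.1 s hs0
      · have := hI4 (ι v) b 1 s (hιEx v hv) hb one_ne_zero hs0 hIm
        rwa [one_smul] at this
  choose φ hφ1 hφ0 T hTX hxT using hφ
  have hφ00 : φ 0 = 0 := hφ0 0 rfl
  have hTinj : ∀ v w : Fin 3 → F, T (v + w) = T v * T w := by
    intro v w
    apply Subtype.ext
    apply LinearEquiv.ext
    intro u
    rw [hTX (v + w) u, ← hιx]
    change _ = (T v : Lm C F ≃ₗ[F] Lm C F) ((T w : Lm C F ≃ₗ[F] Lm C F) u)
    rw [hTX v, hTX w]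
  -- multiples
  have hmul : ∀ (v : Fin 3 → F), v ≠ 0 → ∀ c : F, ∃ c' : F, φ (c • v) = c' • φ v ∧
      IsX C (φ v) c' ((x (T (c • v)) : EG C F) : Lm C F ≃ₗ[F] Lm C F) := by
    intro v hv c
    by_cases hc : c = 0
    · subst hc
      refine ⟨0, ?_, ?_⟩
      · rw [zero_smul, zero_smul, hφ00]
      · intro u
        have h1 := hxT ((0 : F) • v) u
        rw [h1, zero_smul, hφ00]
        simp [xe]
    · have hcv : c • v ≠ 0 := smul_ne_zero hc hv
      obtain ⟨hEx1, hIm1⟩ := hφ1 v hv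
      obtain ⟨hEx2, hIm2⟩ := hφ1 (c • v) hcv
      have hIm3 := hI4 (ι v) (φ v) c 1 (hιEx v hv) hEx1 hc one_ne_zero hIm1
      rw [one_smul, ← map_smul] at hIm3
      obtain ⟨c', hc', e⟩ := hI3 (ι (c • v)) (φ v) (φ (c • v)) (hιEx _ hcv) hEx1 hEx2 hIm3 hIm2
      refine ⟨c', e, ?_⟩
      intro u
      rw [hxT (c • v) u, e, PLN_xe_smul, mul_one]
  -- additivity
  have hadd : ∀ v w : Fin 3 → F, φ (v + w) = φ v + φ w := by
    intro v w
    by_cases hv : v = 0
    · subst hv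
      rw [zero_add, hφ00, zero_add]
    by_cases hdep : ∃ c : F, w = c • v
    · obtain ⟨c, rfl⟩ := hdep
      obtain ⟨c1, e1, h1⟩ := hmul v hv c
      obtain ⟨c2, e2, h2⟩ := hmul v hv (1 + c)
      have e3 : v + c • v = (1 + c) • v := by rw [add_smul, one_smul]
      obtain ⟨-, -, -, -, -, -, hXinj, -, hXadd⟩ := hExf (φ v) (hφ1 v hv).1
      have h3 : IsX C (φ v) (1 + c1) ((x (T v) : EG C F) * (x (T (c • v)) : EG C F) : Lm C F ≃ₗ[F] Lm C F) :=
        hXadd _ _ _ _ (hxT v) h1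
      have h4 : ((x (T v) : EG C F) * (x (T (c • v)) : EG C F) : Lm C F ≃ₗ[F] Lm C F) =
          ((x (T ((1 + c) • v)) : EG C F) : Lm C F ≃ₗ[F] Lm C F) := by
        rw [← e3, hTinj, map_mul]
        rfl
      rw [h4] at h3
      have h5 := hXinj _ _ _ h2 h3
      rw [e3, e2, e1, h5, add_smul, one_smul]
    · have hw : w ≠ 0 := fun h => hdep ⟨0, by rw [h, zero_smul]⟩
      have hind : LinearIndependent F ![v, w] := by
        rw [LinearIndependent.pair_iff]
        intro s t hst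
        by_cases ht : t = 0
        · subst ht
          rw [zero_smul, add_zero] at hst
          exact ⟨(smul_eq_zero.1 hst).resolve_right hv, rfl⟩
        · exfalso
          apply hdep
          refine ⟨-(s / t), ?_⟩
          have h6 : t • w = -(s • v) := by
            rw [eq_neg_iff_add_eq_zero, add_comm]; exact hst
          have h7 : w = t⁻¹ • (t • w) := by rw [smul_smul, inv_mul_cancel₀ ht, one_smul]
          rw [h7, h6, ← neg_smul, smul_smul]
          congr 1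
          field_simp
      have hvw : v + w ≠ 0 := by
        intro h
        apply hdep
        refine ⟨-1, ?_⟩
        rw [neg_smul, one_smul]
        exact (neg_eq_of_add_eq_zero_right h).symm
      have hT1 := hιTp v w hind
      have hT2 := hIMT n C F j0 θ δ hE x hx (ι v) (ι w) (φ v) (φ w) (hφ1 v hv).1 (hφ1 w hw).1
        (hφ1 v hv).2 (hφ1 w hw).2 hT1
      obtain ⟨hEx, hxx⟩ := hsum _ _ hT2
      have h8 : IsX C (φ v + φ w) 1 ((x (T (v + w)) : EG C F) : Lm C F ≃ₗ[F] Lm C F) := by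
        intro u
        rw [hTinj, map_mul, ← hxx]
        change ((x (T v) : EG C F) : Lm C F ≃ₗ[F] Lm C F) (((x (T w) : EG C F) : Lm C F ≃ₗ[F] Lm C F) u) = _
        rw [hxT v, hxT w]
      have h9 := hUNQ n C F j0 θ δ hE (φ (v + w)) (φ v + φ w) 1 _ (hφ1 _ hvw).1 hEx (hxT (v + w)) h8
      rw [h9, one_smul]
  -- the form
  let B : (Fin 3 → F) →ₗ[F] Lm C F →ₗ[F] F := LinearMap.mk₂ F (fun v w => fm C (ι v) w)
    (fun v v' w => by rw [map_add, fm_add_left])
    (fun c v w => by rw [map_smul, fm_smul_left, smul_eq_mul])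
    (fun v w w' => by rw [fm_add_right])
    (fun c v w => by rw [fm_smul_right, smul_eq_mul])
  let Φ : (Fin 3 → F) →+ Lm C F := AddMonoidHom.mk' φ hadd
  have hinj : Function.Injective Φ := by
    rw [injective_iff_map_eq_zero]
    intro v hv
    by_contra hne
    have h1 := (hExf _ (hφ1 v hne).1).2.1
    exact h1 hv
  obtain ⟨v, hv, hB⟩ := hCOR F (Lm C F) Φ B hinj (fun c v => by
    by_cases hv : v = 0
    · subst hv
      exact ⟨0, by rw [smul_zero, zero_smul, map_zero]⟩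
    · obtain ⟨c', e, -⟩ := hmul v hv c
      exact ⟨c', e⟩)
  have hEx1 := hιEx v hv
  obtain ⟨hEx2, hIm⟩ := hφ1 v hv
  obtain ⟨m, -, -, hTp⟩ := hPCL n C F j0 θ δ hE (ι v) (φ v) hEx1 hEx2
  refine ⟨ι v, φ v, m, hEx1, hEx2, hIm, hTp, ?_⟩
  intro hm
  have h2 := (hTPF n C F θ hE.th2 hβ _ _ _ hTp).2.2.2.2.2.1.2 hm
  exact h2 hB

end Pool.Agent.EXA
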