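import Pool.Agent.helper32.EXB.Spec

set_option autoImplicit false

open Finset

namespace Pool.Agent.EXA

open Pool.Agent.EXC

theorem ZFN_main (hEXF : EXF_stmt) (hPCL : PCL_stmt) (hTPF : TPF_stmt) (hNBR : NBR_stmt) (n : ℕ) (C : Matrix (Fin n) (Fin n) ℤ) [IsC C]
    (F : Type) [Field F] (j0 : Fin n) (θ : Fin n → ℤ) (δ : Fin 3 → Fin n) (hE : IsB C j0 θ δ) (a b : Lm C F) (m : ℤ) (h : Tp C θ a b m) :
    ∃ f, Ex C f ∧ Tp C θ a f (-m) ∧ Tp C θ b f (-2) ∧ fm C b f = -1 := by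
  have hnb := (hNBR n C j0 θ δ hE).1
  obtain ⟨hAu, hExE, hExa, -⟩ := hEXF n C F hnb
  have hExb : Ex C b := (hTPF n C F θ hE.th2 hnb a b m h).2.1
  obtain ⟨k, hk, β, hβ, hm, c, c', hc, hc', hka, hkb⟩ := h
  have hnβ : ip C (-β) (-β) = 2 := neg_root C hβ
  have hμ : -c'⁻¹ ≠ 0 := neg_ne_zero.2 (inv_ne_zero hc')
  have hkf : k ((-c'⁻¹) • k⁻¹ (E C (-β))) = (-c'⁻¹) • (E C (-β) : Lm C F) := by
    rw [map_smul]
    congr 1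
    rw [← LinearEquiv.mul_apply, mul_inv_cancel]
    rfl
  have hf : Ex C ((-c'⁻¹) • k⁻¹ (E C (-β) : Lm C F)) := by
    have h1 : Ex C (k⁻¹ (E C (-β) : Lm C F)) :=
      (hExa _ (hExE (-β) hnβ)).2.2.1 k⁻¹ (Subgroup.inv_mem _ hk)
    exact (hExa _ h1).2.2.2.1 _ hμ
  have hfm : fm C b ((-c'⁻¹) • k⁻¹ (E C (-β))) = -1 := by
    rw [← (hAu k hk).fm, hkf, hkb, fm_smul_left, fm_smul_right, fm_E_E C hβ hnβ, if_pos rfl]
    field_simp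
  refine ⟨(-c'⁻¹) • k⁻¹ (E C (-β)), hf, ⟨k, hk, -β, hnβ, ?_, c, -c'⁻¹, hc, hμ, hka, hkf⟩, ?_, hfm⟩
  · rw [ip_neg_right, hm]
  · obtain ⟨m', -, -, hT⟩ := hPCL n C F j0 θ δ hE b _ hExb hf
    have h1 := (hTPF n C F θ hE.th2 hnb _ _ m' hT).2.2.2.2.2.1.1 (by rw [hfm]; exact neg_ne_zero.2 one_ne_zero)
    rw [← h1]
    exact hT

theorem ZFN (hEXF : EXF_stmt) (hPCL : PCL_stmt) (hTPF : TPF_stmt) (hINV : INV_stmt) (hNBR : NBR_stmt) : ZFN_stmt := by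
  intro n C hC F hF j0 θ δ hE a b
  constructor
  · intro h
    have h1 := ZFN_main hEXF hPCL hTPF hNBR n C F j0 θ δ hE a b 0 h
    rwa [neg_zero] at h1
  · intro h
    have h1 := ZFN_main hEXF hPCL hTPF hNBR n C F j0 θ δ hE a b (-1) h
    rwa [neg_neg] at h1

end Pool.Agent.EXA
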