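import Pool.Agent.helper32.EXB.Spec

/-!
# EXC, block 3: row ZM1
-/

set_option autoImplicit false

open Finset

namespace Pool.Agent.EXA

open Pool.Agent.EXC

section
variable {n : ℕ} (C : Matrix (Fin n) (Fin n) ℤ) [IsC C] {F : Type} [Field F]

theorem ZM1_xe_zero (a v : Lm C F) : xe C a 0 v = v := by
  unfold xe
  rw [zero_smul, zero_pow two_ne_zero, zero_mul, zero_smul, add_zero, add_zero]

theorem ZM1_fin [Finite F] : Finite (EG C F) := by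
  have h1 : Finite (Lm C F ≃ₗ[F] Lm C F) :=
    Finite.of_injective (fun g : Lm C F ≃ₗ[F] Lm C F => (g : Lm C F → Lm C F)) DFunLike.coe_injective
  exact inferInstance

/-- normalisation of the image -/
theorem ZM1_nrm (hIMX : IMX_stmt) (hEXF : EXF_stmt) (hXAU : XAU_stmt) {j0 : Fin n} {θ : Fin n → ℤ}
    {δ : Fin 3 → Fin n} (hE : IsB C j0 θ δ) (hβ : ∀ α, ip C α α = 2 → ∃ β, ip C β β = 2 ∧ ip C α β = -1)
    {x : MulAut (EG C F)} (hx : RA C x) {a b : Lm C F} (ha : Ex C a) (hb : Ex C b) (hI : Im C x a b)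
    {t : EG C F} (ht : IsX C a 1 (t : Lm C F ≃ₗ[F] Lm C F)) :
    ∃ v : F, v ≠ 0 ∧ Ex C (v • b) ∧ Im C x a (v • b) ∧ IsX C (v • b) 1 ((x t : EG C F) : Lm C F ≃ₗ[F] Lm C F) := by
  obtain ⟨v, hv⟩ := (hI t).1 ⟨1, ht⟩
  have hv0 : v ≠ 0 := by
    rintro rfl
    have h1 : x t = 1 := by
      apply Subtype.ext
      apply LinearEquiv.ext
      intro w
      rw [hv w, ZM1_xe_zero]
      rfl
    have h2 : t = 1 := by
      have h3 : x t = x 1 := by rw [h1, map_one]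
      exact x.injective h3
    have h4 : IsX C a 0 (t : Lm C F ≃ₗ[F] Lm C F) := by
      intro w
      rw [ZM1_xe_zero, h2]
      rfl
    have h5 := ((hEXF n C F hβ).2.2.1 a ha).2.2.2.2.2.2.1 1 0 _ ht h4
    exact one_ne_zero h5
  have hXb := (hXAU n C F b ((hEXF n C F hβ).2.2.1 b hb).1).2.2.2 v
  refine ⟨v, hv0, ((hEXF n C F hβ).2.2.1 b hb).2.2.2.1 v hv0, ?_, ?_⟩
  · have h6 := (hIMX n C F j0 θ δ hE x hx).2.2.2 a b 1 v ha hb one_ne_zero hv0 hI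
    rwa [one_smul] at h6
  · intro w
    rw [hv w, hXb.2 1 w, mul_one]

end

theorem ZM1 (hZGA : ZGA_stmt) (hZJC : ZJC_stmt) (hZFN : ZFN_stmt) (hZAD : ZAD_stmt) (hIMX : IMX_stmt) (hIMT : IMT_stmt)
    (hTPF : TPF_stmt) (hTSY : TSY_stmt) (hUNQ : UNQ_stmt) (hEXF : EXF_stmt) (hXAU : XAU_stmt) (hINV : INV_stmt)
    (hNBR : NBR_stmt) : ZM1_stmt := by
  intro n C _ F _ _ j0 θ δ hE h3 x hx hyp a b₀ ha hb₀ hI₀ hT₀
  have hβ := (hNBR n C j0 θ δ hE).1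
  have ef := (hEXF n C F hβ).2.2.1
  have hsym := (hINV n C F).2.2.1
  -- the element t
  obtain ⟨t₀, ht₀, htX⟩ := (ef a ha).2.2.2.2.1 1
  set t : EG C F := ⟨t₀, ht₀⟩ with htdef
  have ht : IsX C a 1 (t : Lm C F ≃ₗ[F] Lm C F) := htX
  obtain ⟨v, hv0, hb, hI, hxt⟩ := ZM1_nrm C hIMX hEXF hXAU hE hβ hx ha hb₀ hI₀ ht
  have hT : Tp C θ a (v • b₀) (-1) := by
    have h1 := (hTPF n C F θ hE.th2 hβ a b₀ (-1) hT₀).2.2.2.1 1 v one_ne_zero hv0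
    rwa [one_smul] at h1
  generalize v • b₀ = b at hb hI hxt hT
  obtain ⟨f, hf, haf, hbf, hfm⟩ := (hZFN n C F j0 θ δ hE a b).2 hT
  -- the element s
  obtain ⟨s₀, hs₀, hsX⟩ := (ef f hf).2.2.2.2.1 1
  set s : EG C F := ⟨s₀, hs₀⟩ with hsdef
  have hs : IsX C f 1 (s : Lm C F ≃ₗ[F] Lm C F) := hsX
  obtain ⟨d₀, hd₀, hId₀⟩ := (hIMX n C F j0 θ δ hE x hx).1 f hf
  obtain ⟨v', hv'0, hd, hId, hxs⟩ := ZM1_nrm C hIMX hEXF hXAU hE hβ hx hf hd₀ hId₀ hs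
  generalize v' • d₀ = d at hd hId hxs
  have hbd : Tp C θ b d 1 := hIMT n C F j0 θ δ hE x hx a f b d hb hd hI hId haf
  -- the sum
  obtain ⟨hEaf, hXaf⟩ := hZAD n C F j0 θ δ hE a f haf 1 1 (Or.inl one_ne_zero)
  obtain ⟨hEbd, hXbd⟩ := hZAD n C F j0 θ δ hE b d hbd 1 1 (Or.inl one_ne_zero)
  rw [one_smul, one_smul] at hEaf hXaf hEbd hXbd
  have hts : IsX C (a + f) 1 ((t * s : EG C F) : Lm C F ≃ₗ[F] Lm C F) := hXaf _ _ ht hs
  have hxts : IsX C (b + d) 1 ((x (t * s) : EG C F) : Lm C F ≃ₗ[F] Lm C F) := by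
    rw [map_mul]
    exact hXbd _ _ hxt hxs
  have hafbd : fm C (a + f) (b + d) = 0 := by
    obtain ⟨e, he, hIe⟩ := (hIMX n C F j0 θ δ hE x hx).1 (a + f) hEaf
    obtain ⟨w, hw⟩ := (hIe (t * s)).1 ⟨1, hts⟩
    have h1 := hUNQ n C F j0 θ δ hE (b + d) e w _ hEbd he hxts hw
    rw [h1, fm_smul_right, hyp _ _ hEaf he hIe, mul_zero]
  have hab0 : fm C a b = 0 := hyp a b ha hb hI
  have hfd0 : fm C f d = 0 := hyp f d hf hd hId
  have had : fm C a d = 1 := by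
    rw [fm_add_left, fm_add_right, fm_add_right, hab0, hfd0, hsym f b, hfm] at hafbd
    linear_combination hafbd
  have hneg : ((-1 : F) • d) = -d := by rw [neg_smul, one_smul]
  have hXd := (hXAU n C F d (ef d hd).1).2.2.2 (-1)
  rw [hneg] at hXd
  have hS : S3 C a b (-d) f := by
    refine ⟨(ef a ha).1, (ef b hb).1, hXd.1, (ef f hf).1, ?_, hfm, hab0, ?_, ?_, ?_, ?_, ?_⟩
    · rw [fm_neg_right, had]
    · rw [fm_neg_left, hsym d f, hfd0, neg_zero]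
    · exact (hTPF n C F θ hE.th2 hβ f a 1 (hTSY n C F j0 θ δ hE a f 1 haf)).2.2.2.2.2.2.1 rfl
    · exact (hTPF n C F θ hE.th2 hβ a f 1 haf).2.2.2.2.2.2.1 rfl
    · obtain ⟨w, hw1, hw2⟩ := (hTPF n C F θ hE.th2 hβ d b 1 (hTSY n C F j0 θ δ hE b d 1 hbd)).2.2.2.2.2.2.1 rfl
      refine ⟨-w, ?_, ?_⟩
      · rw [fm_neg_left, fm_neg_right, neg_neg, hw1]
      · rw [br_neg_left, br_neg_right, neg_neg]
        exact hw2
    · obtain ⟨w, hw1, hw2⟩ := (hTPF n C F θ hE.th2 hβ b d 1 hbd).2.2.2.2.2.2.1 rfl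
      refine ⟨-w, ?_, ?_⟩
      · rw [fm_neg_right, hw1, neg_zero]
      · rw [br_neg_right, ← hw2]
  have hxs' : IsX C (-d) (-1) ((x s : EG C F) : Lm C F ≃ₗ[F] Lm C F) := by
    intro w
    rw [hxs w, hXd.2 (-1) w, neg_mul_neg, one_mul]
  have hfin : Finite (EG C F) := ZM1_fin C
  have hJ := hZJC n C F j0 θ δ hE h3 a b (-d) f t (x t) s (x s) hS ht hxt hs hxs'
  refine hZGA (EG C F) x t s ((x t * t⁻¹) ^ 2 * ((x s * s⁻¹) ^ 2)⁻¹) 3 ?_ hJ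
  refine Subgroup.mul_mem _ (Subgroup.pow_mem _ (Subgroup.subset_closure ?_) _)
    (Subgroup.inv_mem _ (Subgroup.pow_mem _ (Subgroup.subset_closure ?_) _))
  · exact Set.mem_insert _ _
  · exact Set.mem_insert_of_mem _ (Set.mem_singleton _)

end Pool.Agent.EXA
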