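import Pool.Agent.helper32.EXB.Spec

set_option autoImplicit false

open Finset

namespace Pool.Agent.EXA

open Pool.Agent.EXC

theorem ZSC_uniq {n : ℕ} (C : Matrix (Fin n) (Fin n) ℤ) [IsC C] {F : Type} [Field F] (hEXF : EXF_stmt)
    (hnb : ∀ α, ip C α α = 2 → ∃ β, ip C β β = 2 ∧ ip C α β = -1) (x : MulAut (EG C F)) (σ σ' : F ≃+* F) (a b : Lm C F) (c c' : F)
    (ha : Ex C a) (hb : Ex C b) (hc : c ≠ 0) (h : SL C x σ a b c) (h' : SL C x σ' a b c') : σ = σ' := by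
  obtain ⟨-, -, hExa, -⟩ := hEXF n C F hnb
  obtain ⟨-, -, -, -, hx, -⟩ := hExa a ha
  obtain ⟨-, -, -, -, -, -, hu, -⟩ := hExa b hb
  have h1 : ∀ u, c * σ u = c' * σ' u := by
    intro u
    obtain ⟨g, hg, hgx⟩ := hx u
    exact hu _ _ _ (h u ⟨g, hg⟩ hgx) (h' u ⟨g, hg⟩ hgx)
  have h2 : c = c' := by
    have := h1 1
    rwa [map_one, map_one, mul_one, mul_one] at this
  refine RingEquiv.ext fun u => ?_
  have h3 := h1 u
  rw [← h2] at h3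
  exact mul_left_cancel₀ hc h3

theorem ZSC (hZSE : ZSE_stmt) (hCNN : CNN_stmt) (hNBR : NBR_stmt) (hIMX : IMX_stmt) (hTSY : TSY_stmt) (hEXF : EXF_stmt) (hUNQ : UNQ_stmt)
    (hXAU : XAU_stmt) (hTPF : TPF_stmt) : ZSC_stmt := by
  intro n C hC F hF j0 θ δ hE x hx
  have hnb := (hNBR n C j0 θ δ hE).1
  obtain ⟨hAu, hExE, hExa, -⟩ := hEXF n C F hnb
  obtain ⟨hI1, hI2, hI3, hI4⟩ := hIMX n C F j0 θ δ hE x hx
  -- scalars: IsX of a multiple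
  have hscal : ∀ (a : Lm C F), Ex C a → ∀ (c t : F) (g : Lm C F ≃ₗ[F] Lm C F), IsX C (c • a) t g ↔ IsX C a (c * t) g := by
    intro a ha c t g
    have h1 := ((hXAU n C F a (hExa a ha).1).2.2.2 c).2
    constructor
    · intro h v
      rw [h v, h1]
    · intro h v
      rw [h v, h1]
  obtain ⟨β0, hβ0, hip0⟩ := hnb θ hE.th2
  have hβ : ip C (-β0) (-β0) = 2 := neg_root C hβ0
  have hip : ip C θ (-β0) = 1 := by rw [ip_neg_right, hip0]; norm_num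
  have hT : Tp C θ (E C θ : Lm C F) (E C (-β0)) 1 := by
    refine ⟨1, Subgroup.one_mem _, -β0, hβ, hip, 1, 1, one_ne_zero, one_ne_zero, ?_, ?_⟩
    · rw [one_smul]
      rfl
    · rw [one_smul]
      rfl
  obtain ⟨b0, hb0, hIm0⟩ := hI1 (E C θ) (hExE θ hE.th2)
  obtain ⟨b1, hb1, hIm1⟩ := hI1 (E C (-β0)) (hExE _ hβ)
  obtain ⟨σ, ⟨c0, hc0, hSL0⟩, -⟩ := hZSE n C F j0 θ δ hE x hx (E C θ) b0 (E C (-β0)) b1 (hExE θ hE.th2) hb0 (hExE _ hβ) hb1 hIm0 hIm1 hT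
  refine ⟨σ, ?_⟩
  have key := hCNN n C F j0 θ δ hE (fun a => Ex C a → ∀ b, Ex C b → Im C x a b → ∃ c, c ≠ 0 ∧ SL C x σ a b c)
  have step : ∀ a a2, Tp C θ a a2 1 → (Ex C a → ∀ b, Ex C b → Im C x a b → ∃ c, c ≠ 0 ∧ SL C x σ a b c) →
      (Ex C a2 → ∀ b, Ex C b → Im C x a2 b → ∃ c, c ≠ 0 ∧ SL C x σ a2 b c) := by
    intro a a2 hTa hP ha2 b2 hb2 hIm2
    have ha : Ex C a := (hTPF n C F θ hE.th2 hnb a a2 1 hTa).1
    obtain ⟨b, hb, hIm⟩ := hI1 a ha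
    obtain ⟨c1, hc1, hSL1⟩ := hP ha b hb hIm
    obtain ⟨σ', ⟨c2, hc2, hSL2⟩, ⟨c3, hc3, hSL3⟩⟩ := hZSE n C F j0 θ δ hE x hx a b a2 b2 ha hb ha2 hb2 hIm hIm2 hTa
    have hσ : σ = σ' := ZSC_uniq C hEXF hnb x σ σ' a b c1 c2 ha hb hc1 hSL1 hSL2
    rw [hσ]
    exact ⟨c3, hc3, hSL3⟩
  intro a b ha hb hIm
  refine key ?_ step ?_ ⟨E C θ, hExE θ hE.th2, ?_⟩ a ha ha b hb hIm
  · -- scalars
    intro a c hc hP hca b hb hIm
    have ha : Ex C a := by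
      have h1 := (hExa _ hca).2.2.2.1 c⁻¹ (inv_ne_zero hc)
      rwa [smul_smul, inv_mul_cancel₀ hc, one_smul] at h1
    have hIm' : Im C x a b := by
      have h1 := hI4 (c • a) b c⁻¹ 1 hca hb (inv_ne_zero hc) one_ne_zero hIm
      rwa [smul_smul, inv_mul_cancel₀ hc, one_smul, one_smul] at h1
    obtain ⟨c1, hc1, hSL⟩ := hP ha b hb hIm'
    refine ⟨c1 * σ c, mul_ne_zero hc1 ((map_ne_zero_iff σ σ.injective).2 hc), ?_⟩
    intro u h hh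
    have h1 := hSL (c * u) h ((hscal a ha c u _).1 hh)
    rw [map_mul, ← mul_assoc] at h1
    exact h1
  · intro a b hTab hP
    exact step b a (hTSY n C F j0 θ δ hE a b 1 hTab) hP
  · intro _ b hb hIm
    obtain ⟨c, hc, rfl⟩ := hI3 (E C θ) b0 b (hExE θ hE.th2) hb0 hb hIm0 hIm
    refine ⟨c⁻¹ * c0, mul_ne_zero (inv_ne_zero hc) hc0, ?_⟩
    intro u h hh
    refine (hscal b0 hb0 c _ _).2 ?_
    have h1 := hSL0 u h hh
    rwa [← mul_assoc, ← mul_assoc, mul_inv_cancel₀ hc, one_mul]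

end Pool.Agent.EXA
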