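import Pool.Agent.helper32.EXB.Spec

/-!
# Row `en3:ZSE` (MP_561ff4_al)

Semilinearity on a collinear pair.
-/

set_option autoImplicit false

open Finset

namespace Pool.Agent.EXA

open Pool.Agent.EXC

/-- the map of parameters -/
theorem ZSE_phi (hEXF : EXF_stmt) {n : ℕ} (C : Matrix (Fin n) (Fin n) ℤ) [IsC C] {F : Type} [Field F]
    (hβ : ∀ α, ip C α α = 2 → ∃ β, ip C β β = 2 ∧ ip C α β = -1)
    (x : MulAut (EG C F)) (a b : Lm C F) (ha : Ex C a) (hb : Ex C b) (hI : Im C x a b) :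
    ∃ φ : F → F, (∀ (u : F) (h : EG C F), IsX C a u (h : Lm C F ≃ₗ[F] Lm C F) →
        IsX C b (φ u) ((x h : EG C F) : Lm C F ≃ₗ[F] Lm C F)) ∧
      (∀ u v, φ (u + v) = φ u + φ v) ∧ Function.Injective φ ∧ Function.Surjective φ := by
  obtain ⟨_, _, hEx, _⟩ := hEXF n C F hβ
  obtain ⟨_, _, _, _, hexa, _, huna, _, hadda⟩ := hEx a ha
  obtain ⟨_, _, _, _, hexb, _, hunb, _, haddb⟩ := hEx b hb
  have hext : ∀ (c : Lm C F) (t : F) (g h : EG C F), IsX C c t (g : Lm C F ≃ₗ[F] Lm C F) →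
      IsX C c t (h : Lm C F ≃ₗ[F] Lm C F) → g = h := by
    intro c t g h hg hh
    apply Subtype.ext
    apply LinearEquiv.ext
    intro v
    rw [hg v, hh v]
  have hX : ∀ u : F, ∃ h : EG C F, IsX C a u (h : Lm C F ≃ₗ[F] Lm C F) := by
    intro u
    obtain ⟨h, hh, hx⟩ := hexa u
    exact ⟨⟨h, hh⟩, hx⟩
  choose X hX using hX
  have hP : ∀ u : F, ∃ t : F, IsX C b t ((x (X u) : EG C F) : Lm C F ≃ₗ[F] Lm C F) := fun u =>
    (hI (X u)).1 ⟨u, hX u⟩
  choose φ hφ using hP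
  refine ⟨φ, ?_, ?_, ?_, ?_⟩
  · intro u h hh
    rw [hext a u h (X u) hh (hX u)]
    exact hφ u
  · intro u v
    have e : X (u + v) = X u * X v := by
      refine hext a (u + v) _ _ (hX _) ?_
      exact hadda u v _ _ (hX u) (hX v)
    have h1 := hφ (u + v)
    rw [e, map_mul] at h1
    exact hunb _ _ _ h1 (haddb _ _ _ _ (hφ u) (hφ v))
  · intro u v huv
    have h1 : x (X u) = x (X v) := by
      refine hext b (φ u) _ _ (hφ u) ?_
      rw [huv]
      exact hφ v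
    have h2 : X u = X v := x.injective h1
    have h3 := hX u
    rw [h2] at h3
    exact huna _ _ _ h3 (hX v)
  · intro t
    obtain ⟨h, hh, hx⟩ := hexb t
    have h1 : IsX C b t ((x (x.symm ⟨h, hh⟩) : EG C F) : Lm C F ≃ₗ[F] Lm C F) := by
      rw [MulEquiv.apply_symm_apply]
      exact hx
    obtain ⟨u, hu⟩ := (hI (x.symm ⟨h, hh⟩)).2 ⟨t, h1⟩
    refine ⟨u, ?_⟩
    have h2 : x.symm ⟨h, hh⟩ = X u := hext a u _ _ hu (hX u)
    rw [h2] at h1
    exact hunb _ _ _ (hφ u) h1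

/-- the field automorphism -/
theorem ZSE_field {F : Type} [Field F] (φ ψ : F → F) (hφa : ∀ u v, φ (u + v) = φ u + φ v)
    (hφi : Function.Injective φ) (hφs : Function.Surjective φ)
    (hψa : ∀ u v, ψ (u + v) = ψ u + ψ v) (hψi : Function.Injective ψ)
    (hk : ∀ c u v : F, c ≠ 0 → u ≠ 0 → v ≠ 0 → φ (c * u) * ψ v = ψ (c * v) * φ u) :
    ∃ σ : F ≃+* F, (∀ u, φ u = φ 1 * σ u) ∧ (∀ u, ψ u = ψ 1 * σ u) ∧ φ 1 ≠ 0 ∧ ψ 1 ≠ 0 := by
  have hφ0 : φ 0 = 0 := by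
    have := hφa 0 0
    rw [add_zero] at this
    exact (left_eq_add.1 this)
  have hψ0 : ψ 0 = 0 := by
    have := hψa 0 0
    rw [add_zero] at this
    exact (left_eq_add.1 this)
  have hφn : ∀ u, u ≠ 0 → φ u ≠ 0 := fun u hu h => hu (hφi (h.trans hφ0.symm))
  have hψn : ∀ u, u ≠ 0 → ψ u ≠ 0 := fun u hu h => hu (hψi (h.trans hψ0.symm))
  have p1 : φ 1 ≠ 0 := hφn 1 one_ne_zero
  have p2 : ψ 1 ≠ 0 := hψn 1 one_ne_zero
  -- the ratio
  have k1 : ∀ c u : F, φ (c * u) = φ c / φ 1 * φ u := by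
    intro c u
    by_cases hc : c = 0
    · subst hc; rw [zero_mul, hφ0]; simp
    by_cases hu : u = 0
    · subst hu; rw [mul_zero, hφ0]; simp
    have h1 := hk c u 1 hc hu one_ne_zero
    have h2 := hk c 1 1 hc one_ne_zero one_ne_zero
    rw [mul_one] at h1 h2
    have h3 : φ (c * u) = ψ c * φ u / ψ 1 := by
      rw [← h1]; field_simp
    have h4 : φ c = ψ c * φ 1 / ψ 1 := by
      rw [← h2]; field_simp
    rw [h3, h4]
    field_simp
  have k2 : ∀ c : F, ψ c = ψ 1 * (φ c / φ 1) := by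
    intro c
    by_cases hc : c = 0
    · subst hc; rw [hψ0, hφ0]; simp
    have h2 := hk c 1 1 hc one_ne_zero one_ne_zero
    rw [mul_one] at h2
    field_simp
    rw [← h2]
    ring
  let σ₀ : F →+* F :=
    { toFun := fun c => φ c / φ 1
      map_one' := div_self p1
      map_mul' := fun c d => by
        rw [k1 c d]
        field_simp
      map_zero' := by rw [hφ0, zero_div]
      map_add' := fun c d => by
        rw [hφa, add_div] }
  have hb : Function.Bijective σ₀ := by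
    refine ⟨σ₀.injective, fun t => ?_⟩
    obtain ⟨u, hu⟩ := hφs (φ 1 * t)
    refine ⟨u, ?_⟩
    change φ u / φ 1 = t
    rw [hu]
    field_simp
  refine ⟨RingEquiv.ofBijective σ₀ hb, fun u => ?_, fun u => ?_, p1, p2⟩
  · change φ u = φ 1 * (φ u / φ 1)
    field_simp
  · change ψ u = ψ 1 * (φ u / φ 1)
    exact k2 u

theorem ZSE (hEXF : EXF_stmt) (hXAU : XAU_stmt) (hUNQ : UNQ_stmt) (hIMX : IMX_stmt) (hIMT : IMT_stmt)
    (hTPF : TPF_stmt) (hZAD : ZAD_stmt) (hNBR : NBR_stmt) : ZSE_stmt := by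
  intro n C _ F _ j0 θ δ hE x hx a b a2 b2 ha hb ha2 hb2 hI hI2 hT
  have hβ := (hNBR n C j0 θ δ hE).1
  obtain ⟨φ, hφ, hφa, hφi, hφs⟩ := ZSE_phi hEXF C hβ x a b ha hb hI
  obtain ⟨ψ, hψ, hψa, hψi, hψs⟩ := ZSE_phi hEXF C hβ x a2 b2 ha2 hb2 hI2
  obtain ⟨_, _, hEx, _⟩ := hEXF n C F hβ
  have hT' : Tp C θ b b2 1 := hIMT n C F j0 θ δ hE x hx a a2 b b2 hb hb2 hI hI2 hT
  -- independence
  have hind : ∀ p q p' q' : F, p • b + q • b2 = p' • b + q' • b2 → p = p' ∧ q = q' := by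
    intro p q p' q' h
    have hne : ¬ ∃ c : F, b2 = c • b := by
      intro hc
      have := (hTPF n C F θ hE.th2 hβ b b2 1 hT').2.2.2.2.1.2 hc
      norm_num at this
    have hb0 : b ≠ 0 := (hEx b hb).2.1
    have h0 : (q - q') • b2 - (p' - p) • b = 0 := by
      rw [← sub_eq_zero.2 h]
      module
    have hq : q = q' := by
      by_contra hq
      apply hne
      refine ⟨(p' - p) / (q - q'), ?_⟩
      have h1 : (q - q') • b2 = (p' - p) • b := sub_eq_zero.1 h0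
      rw [div_eq_inv_mul, mul_smul, ← h1, smul_smul, inv_mul_cancel₀ (sub_ne_zero.2 hq), one_smul]
    refine ⟨?_, hq⟩
    rw [hq, sub_self, zero_smul, zero_sub, neg_eq_zero, smul_eq_zero] at h0
    rcases h0 with h0 | h0
    · exact (sub_eq_zero.1 h0).symm
    · exact absurd h0 hb0
  have hφ0 : φ 0 = 0 := by
    have := hφa 0 0
    rw [add_zero] at this
    exact (left_eq_add.1 this)
  have hφn : ∀ u, u ≠ 0 → φ u ≠ 0 := fun u hu h => hu (hφi (h.trans hφ0.symm))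
  have hX : ∀ c : Lm C F, Ex C c → ∀ u : F, ∃ h : EG C F, IsX C c u (h : Lm C F ≃ₗ[F] Lm C F) := by
    intro c hc u
    obtain ⟨h, hh, hx⟩ := (hEx c hc).2.2.2.2.1 u
    exact ⟨⟨h, hh⟩, hx⟩
  -- the element of the pair and its image
  have key : ∀ u v : F, u ≠ 0 → ∃ h : EG C F,
      IsX C (u • a + v • a2) 1 (h : Lm C F ≃ₗ[F] Lm C F) ∧
      IsX C (φ u • b + ψ v • b2) 1 ((x h : EG C F) : Lm C F ≃ₗ[F] Lm C F) := by
    intro u v hu
    obtain ⟨g, hg⟩ := hX a ha u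
    obtain ⟨h, hh⟩ := hX a2 ha2 v
    refine ⟨g * h, (hZAD n C F j0 θ δ hE a a2 hT u v (Or.inl hu)).2 _ _ hg hh, ?_⟩
    rw [map_mul]
    exact (hZAD n C F j0 θ δ hE b b2 hT' (φ u) (ψ v) (Or.inl (hφn u hu))).2 _ _ (hφ u g hg) (hψ v h hh)
  have hk : ∀ c u v : F, c ≠ 0 → u ≠ 0 → v ≠ 0 → φ (c * u) * ψ v = ψ (c * v) * φ u := by
    intro c u v hc hu hv
    have hd : Ex C (u • a + v • a2) := (hZAD n C F j0 θ δ hE a a2 hT u v (Or.inl hu)).1
    obtain ⟨e', he', hIe⟩ := (hIMX n C F j0 θ δ hE x hx).1 _ hd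
    obtain ⟨h0, h01, h02⟩ := key u v hu
    obtain ⟨h1, h11, h12⟩ := key (c * u) (c * v) (mul_ne_zero hc hu)
    obtain ⟨t, ht⟩ := (hIe h0).1 ⟨1, h01⟩
    have h13 : IsX C (u • a + v • a2) c (h1 : Lm C F ≃ₗ[F] Lm C F) := by
      intro w
      rw [h11 w]
      have e1 : (c * u) • a + (c * v) • a2 = c • (u • a + v • a2) := by module
      rw [e1, ((hXAU n C F _ (hEx _ hd).1).2.2.2 c).2 1 w, mul_one]
    obtain ⟨t', ht'⟩ := (hIe h1).1 ⟨c, h13⟩
    have hE1 : Ex C (φ u • b + ψ v • b2) :=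
      (hZAD n C F j0 θ δ hE b b2 hT' (φ u) (ψ v) (Or.inl (hφn u hu))).1
    have hE2 : Ex C (φ (c * u) • b + ψ (c * v) • b2) :=
      (hZAD n C F j0 θ δ hE b b2 hT' (φ (c * u)) (ψ (c * v)) (Or.inl (hφn _ (mul_ne_zero hc hu)))).1
    have q1 := hUNQ n C F j0 θ δ hE _ e' t _ hE1 he' h02 ht
    have q2 := hUNQ n C F j0 θ δ hE _ e' t' _ hE2 he' h12 ht'
    have q3 : (t * φ (c * u)) • b + (t * ψ (c * v)) • b2 = (t' * φ u) • b + (t' * ψ v) • b2 := by
      have : t • (φ (c * u) • b + ψ (c * v) • b2) = t' • (φ u • b + ψ v • b2) := by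
        rw [q1, q2, smul_smul, smul_smul, mul_comm]
      rw [smul_add, smul_add, smul_smul, smul_smul, smul_smul, smul_smul] at this
      exact this
    obtain ⟨r1, r2⟩ := hind _ _ _ _ q3
    have ht0 : t ≠ 0 := by
      intro h
      rw [h, zero_smul] at q1
      exact (hEx _ hE1).2.1 q1
    apply mul_left_cancel₀ ht0
    rw [← mul_assoc, r1, ← mul_assoc, r2]
    ring
  obtain ⟨σ, s1, s2, p1, p2⟩ := ZSE_field φ ψ hφa hφi hφs hψa hψi hk
  refine ⟨σ, ⟨φ 1, p1, ?_⟩, ψ 1, p2, ?_⟩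
  · intro u h hh
    rw [← s1 u]
    exact hφ u h hh
  · intro u h hh
    rw [← s2 u]
    exact hψ u h hh

end Pool.Agent.EXA
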