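import Pool.Agent.helper32.EXB.Spec

set_option autoImplicit false

open Finset

namespace Pool.Agent.EXA

open Pool.Agent.EXC

/-- the embedding of the `2 × 2` matrices in the indices `0, 1` -/
def ZW2_em {F : Type} [Field F] (B : Matrix (Fin 2) (Fin 2) F) : Matrix (Fin 4) (Fin 4) F :=
  !![B 0 0, B 0 1, 0, 0; B 1 0, B 1 1, 0, 0; 0, 0, 1, 0; 0, 0, 0, 1]

theorem ZW2_em_mul {F : Type} [Field F] (B B' : Matrix (Fin 2) (Fin 2) F) :
    ZW2_em (B * B') = ZW2_em B * ZW2_em B' := by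
  ext i j
  rw [Matrix.mul_apply]
  fin_cases i <;> fin_cases j <;> simp [ZW2_em, Fin.sum_univ_succ, Matrix.mul_apply]

theorem ZW2_em_one {F : Type} [Field F] : ZW2_em (1 : Matrix (Fin 2) (Fin 2) F) = 1 := by
  ext i j
  fin_cases i <;> fin_cases j <;> simp [ZW2_em]

theorem ZW2_em_smul {F : Type} [Field F] (B : Matrix (Fin 2) (Fin 2) F) (c : F)
    (h : ZW2_em B = c • (1 : Matrix (Fin 4) (Fin 4) F)) : B = 1 := by
  have h2 : (1 : F) = c := by
    have := congrFun (congrFun h 2) 2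
    simpa [ZW2_em] using this
  subst h2
  rw [one_smul] at h
  ext i j
  fin_cases i <;> fin_cases j
  · have := congrFun (congrFun h 0) 0
    simpa [ZW2_em] using this
  · have := congrFun (congrFun h 0) 1
    simpa [ZW2_em] using this
  · have := congrFun (congrFun h 1) 0
    simpa [ZW2_em] using this
  · have := congrFun (congrFun h 1) 1
    simpa [ZW2_em] using this

theorem ZW2_em01 {F : Type} [Field F] (t : F) :
    ZW2_em (!![1, t; 0, 1] : Matrix (Fin 2) (Fin 2) F) = 1 + Matrix.single 0 1 t := by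
  ext i j
  fin_cases i <;> fin_cases j <;> simp [ZW2_em]

theorem ZW2_em10 {F : Type} [Field F] (t : F) :
    ZW2_em (!![1, 0; t, 1] : Matrix (Fin 2) (Fin 2) F) = 1 + Matrix.single 1 0 t := by
  ext i j
  fin_cases i <;> fin_cases j <;> simp [ZW2_em]

theorem ZW2_sl {F : Type} [Field F] (a b : Fin 4) (h : a ≠ b) (t : F) :
    ∃ m : Matrix.SpecialLinearGroup (Fin 4) F, (m : Matrix (Fin 4) (Fin 4) F) = 1 + Matrix.single a b t :=
  ⟨⟨1 + Matrix.single a b t, Matrix.det_transvection_of_ne a b h t⟩, rfl⟩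

theorem ZW2 (hRHO : RHO_stmt) (hRMB : RMB_stmt) (hIOI : IOI_stmt) (hTHT : THT_stmt) (hWPG : WPG_stmt) (hNBR : NBR_stmt)
    (hEXF : EXF_stmt) (hXAU : XAU_stmt) (_hINV : INV_stmt) : ZW2_stmt := by
  intro n C _ F _ j0 θ δ hE a b hT h hh l hl
  obtain ⟨k, hk, β, hβ, hθβ, c, c', hc, hc', hka, hkb⟩ := hT
  have hne := (hNBR n C j0 θ δ hE).1
  obtain ⟨hAu, hEx, hX, -⟩ := hEXF n C F hne
  obtain ⟨r1, -, -, r4, -⟩ := hRHO n C j0 θ δ hE.toA
  have i01 : ip C (ro δ 0 1) (ro δ 0 1) = 2 := by rw [r1]; decide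
  have i10 : ip C (ro δ 1 0) (ro δ 1 0) = 2 := by rw [r1]; decide
  have i011 : ip C (ro δ 0 1) (ro δ 1 0) = -2 := by rw [r1]; decide
  have hWP := hTHT n C j0 θ δ hE θ β (ro δ 0 1) (ro δ 1 0) hE.th2 hβ i01 i10 (by rw [hθβ, i011]) (Or.inl hθβ) hθβ
  obtain ⟨g₂, hg₂, s, s', hs, hs', hgE, hgE'⟩ := hWPG n C F hne θ β _ _ hE.th2 hβ hWP
  have hs0 : (s : F) ≠ 0 := by rcases hs with rfl | rfl <;> simp
  have hs0' : (s' : F) ≠ 0 := by rcases hs' with rfl | rfl <;> simp
  have hg : g₂ * k ∈ GE C F := mul_mem hg₂ hk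
  have hga : (g₂ * k) a = (c * (s : F)) • E C (ro δ 0 1) := by
    rw [LinearEquiv.mul_apply, hka, map_smul, hgE, smul_smul]
  have hgb : (g₂ * k) b = (c' * (s' : F)) • E C (ro δ 1 0) := by
    rw [LinearEquiv.mul_apply, hkb, map_smul, hgE', smul_smul]
  have hc1 : c * (s : F) ≠ 0 := mul_ne_zero hc hs0
  have hc2 : c' * (s' : F) ≠ 0 := mul_ne_zero hc' hs0'
  generalize hg' : g₂ * k = g at hg hga hgb
  generalize hc1' : c * (s : F) = c₁ at hga hc1
  generalize hc2' : c' * (s' : F) = c₂ at hgb hc2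
  have hfm : fm C a b = c₁ * c₂ := by
    rw [← (hAu g hg).fm, hga, hgb, fm_smul_left, fm_smul_right, fm_E_E C i01 i10, if_pos (r4 0 1), mul_one]
  -- extremal
  have hkinv : ∀ v : Lm C F, k⁻¹ (k v) = v := fun v => by
    rw [← LinearEquiv.mul_apply, inv_mul_cancel]
    rfl
  have hExa : Ex C a := by
    refine ⟨k⁻¹, inv_mem hk, θ, hE.th2, c, hc, ?_⟩
    rw [← map_smul, ← hka, hkinv]
  have hExb : Ex C b := by
    refine ⟨k⁻¹, inv_mem hk, β, hβ, c', hc', ?_⟩
    rw [← map_smul, ← hkb, hkinv]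
  obtain ⟨R1, R2, -, R4⟩ := hRMB n C F j0 θ δ hE.toA
  -- the 2 x 2 matrices
  let B : Bool × F → Matrix (Fin 2) (Fin 2) F := fun p => if p.1 then !![1, 0; c₂ * p.2, 1] else !![1, -(c₁ * p.2); 0, 1]
  have hm : ∀ p : Bool × F, ∃ m : Matrix.SpecialLinearGroup (Fin 4) F, (m : Matrix (Fin 4) (Fin 4) F) = ZW2_em (B p) ∧
      Rm C δ (g * ((h p : EG C F) : Lm C F ≃ₗ[F] Lm C F) * g⁻¹) m := by
    rintro ⟨q, u⟩
    have h1 := hh (q, u)
    cases q with
    | false =>
      have h1' : IsX C a u ((h (false, u) : EG C F) : Lm C F ≃ₗ[F] Lm C F) := h1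
      have h2 := (hX a hExa).2.2.2.2.2.2.2.1 g hg u _ h1'
      rw [hga] at h2
      have h3 : IsX C (E C (ro δ 0 1)) (c₁ * u) (g * ((h (false, u) : EG C F) : Lm C F ≃ₗ[F] Lm C F) * g⁻¹) := by
        intro v
        rw [h2 v]
        exact ((hXAU n C F (E C (ro δ 0 1)) (hX _ (hEx _ i01)).1).2.2.2 c₁).2 u v
      obtain ⟨m, hm⟩ := ZW2_sl (F := F) 0 1 (by decide) (-(c₁ * u))
      refine ⟨m, ?_, ?_⟩
      · rw [hm, ← ZW2_em01]
        rfl
      · refine R1 0 1 (-(c₁ * u)) _ m (by decide) ?_ hm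
        have h4 : ((et 0 1 : ℤ) : F) * (-(c₁ * u)) = c₁ * u := by
          have : et 0 1 = -1 := by decide
          rw [this]
          push_cast
          ring
        rw [h4]
        exact h3
    | true =>
      have h1' : IsX C b u ((h (true, u) : EG C F) : Lm C F ≃ₗ[F] Lm C F) := h1
      have h2 := (hX b hExb).2.2.2.2.2.2.2.1 g hg u _ h1'
      rw [hgb] at h2
      have h3 : IsX C (E C (ro δ 1 0)) (c₂ * u) (g * ((h (true, u) : EG C F) : Lm C F ≃ₗ[F] Lm C F) * g⁻¹) := by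
        intro v
        rw [h2 v]
        exact ((hXAU n C F (E C (ro δ 1 0)) (hX _ (hEx _ i10)).1).2.2.2 c₂).2 u v
      obtain ⟨m, hm⟩ := ZW2_sl (F := F) 1 0 (by decide) (c₂ * u)
      refine ⟨m, ?_, ?_⟩
      · rw [hm, ← ZW2_em10]
        rfl
      · refine R1 1 0 (c₂ * u) _ m (by decide) ?_ hm
        have h4 : ((et 1 0 : ℤ) : F) * (c₂ * u) = c₂ * u := by
          have : et 1 0 = 1 := by decide
          rw [this]
          push_cast
          ring
        rw [h4]
        exact h3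
  choose m hm1 hm2 using hm
  -- the product
  have hprod : ∀ l : List (Bool × F),
      Rm C δ (g * (((l.map h).prod : EG C F) : Lm C F ≃ₗ[F] Lm C F) * g⁻¹) (l.map m).prod ∧
      (((l.map m).prod : Matrix.SpecialLinearGroup (Fin 4) F) : Matrix (Fin 4) (Fin 4) F) = ZW2_em (l.map B).prod := by
    intro l
    induction l with
    | nil =>
      refine ⟨?_, ?_⟩
      · simp only [List.map_nil, List.prod_nil, OneMemClass.coe_one, mul_one, mul_inv_cancel]
        exact R4
      · simp only [List.map_nil, List.prod_nil, Matrix.SpecialLinearGroup.coe_one, ZW2_em_one]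
    | cons p l ih =>
      refine ⟨?_, ?_⟩
      · rw [List.map_cons, List.prod_cons, List.map_cons, List.prod_cons, Subgroup.coe_mul]
        have e : g * (((h p : EG C F) : Lm C F ≃ₗ[F] Lm C F) * (((l.map h).prod : EG C F) : Lm C F ≃ₗ[F] Lm C F)) * g⁻¹ =
            (g * ((h p : EG C F) : Lm C F ≃ₗ[F] Lm C F) * g⁻¹) *
              (g * (((l.map h).prod : EG C F) : Lm C F ≃ₗ[F] Lm C F) * g⁻¹) := by group
        rw [e]
        exact R2 _ _ _ _ (hm2 p) ih.1
      · rw [List.map_cons, List.prod_cons, List.map_cons, List.prod_cons, Matrix.SpecialLinearGroup.coe_mul, ih.2, hm1 p,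
          ZW2_em_mul]
  obtain ⟨hp1, hp2⟩ := hprod l
  rw [hl, OneMemClass.coe_one, mul_one, mul_inv_cancel] at hp1
  obtain ⟨e, he⟩ := (hIOI n C F j0 θ δ hE.toA).2 _ hp1
  rw [hp2] at he
  have hB := ZW2_em_smul _ _ he
  -- conjugation by the diagonal matrix
  have hD : ∀ l : List (Bool × F), (l.map B).prod * !![c₁, 0; 0, 1] = !![c₁, 0; 0, 1] *
      (l.map fun p => if p.1 then !![1, 0; fm C a b * p.2, 1] else !![1, -p.2; 0, 1]).prod := by
    intro l
    induction l with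
    | nil => simp
    | cons p l ih =>
      rw [List.map_cons, List.prod_cons, List.map_cons, List.prod_cons, mul_assoc, ih, ← mul_assoc, ← mul_assoc]
      congr 1
      obtain ⟨q, u⟩ := p
      cases q with
      | false =>
        simp only [B, Bool.false_eq_true, if_false]
        ext i j
        fin_cases i <;> fin_cases j <;> simp [Matrix.mul_apply, Fin.sum_univ_two]
      | true =>
        simp only [B, if_true, hfm]
        ext i j
        fin_cases i <;> fin_cases j <;> simp [Matrix.mul_apply, Fin.sum_univ_two] <;> ring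
  have h5 := hD l
  rw [hB, one_mul] at h5
  have h6 : (!![c₁⁻¹, 0; 0, 1] : Matrix (Fin 2) (Fin 2) F) * !![c₁, 0; 0, 1] = 1 := by
    ext i j
    fin_cases i <;> fin_cases j <;> simp [Matrix.mul_apply, Fin.sum_univ_two, hc1]
  rw [← one_mul (List.map _ l).prod, ← h6, mul_assoc, ← h5, h6]

end Pool.Agent.EXA
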