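import Pool.Agent.helper32.EXB.Glue
import Pool.Agent.helper16.EXC.All3
import Pool.Agent.helper32.EXB.CL3
import Pool.Agent.helper32.EXB.PLN
import Pool.Agent.helper32.EXB.CNN
import Pool.Agent.helper32.EXB.RPX
import Pool.Agent.helper32.EXB.BPW
import Pool.Agent.helper32.EXB.ZW2
import Pool.Agent.helper32.EXB.ZC0
import Pool.Agent.helper32.EXB.ZFN
import Pool.Agent.helper32.EXB.ZAD
import Pool.Agent.helper32.EXB.ZJC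
import Pool.Agent.helper32.EXB.ZKS
import Pool.Agent.helper32.EXB.ZSE
import Pool.Agent.helper32.EXB.ZSC
import Pool.Agent.helper32.EXB.ZSL
import Pool.Agent.helper32.EXB.ZM0
import Pool.Agent.helper32.EXB.ZM1
import Pool.Agent.helper32.EXB.ZM2
import Pool.Agent.helper32.EXB.Z3F

/-!
# Project EXB (MP_561ff4_al): all rows
-/

set_option autoImplicit false

open Finset

namespace Pool.Agent.EXA

open Pool.Agent.EXC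

theorem b_CL3 : CL3_stmt := CL3 f_RHO Pool.Agent.EXC.f_EXF Pool.Agent.EXC.f_ACT Pool.Agent.EXC.f_COL Pool.Agent.EXC.f_XAU b_NBR Pool.Agent.EXC.f_WPG f_LIF

theorem b_PLN : PLN_stmt := PLN b_CL3 Pool.Agent.EXC.f_COR b_IMX b_IMT Pool.Agent.EXC.f_TPF b_PCL Pool.Agent.EXC.f_COL b_UNQ Pool.Agent.EXC.f_EXF Pool.Agent.EXC.f_ACT b_NBR

theorem b_CNN : CNN_stmt := CNN Pool.Agent.EXC.f_EXF Pool.Agent.EXC.f_ACT b_NBR Pool.Agent.EXC.f_WPG Pool.Agent.EXC.f_RFL Pool.Agent.EXC.f_TPF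

theorem b_RPX : RPX_stmt := RPX b_PLN b_CNN b_IMX b_IMT Pool.Agent.EXC.f_TPF b_PCL b_FIX Pool.Agent.EXC.f_EXF b_UNQ Pool.Agent.EXC.f_INV b_TSY b_NBR

theorem b_BPW : BPW_stmt := BPW b_RPX Pool.Agent.EXC.f_PEL b_FIX Pool.Agent.EXC.f_EXF Pool.Agent.EXC.f_GRP b_NBR

theorem b_ZW2 : ZW2_stmt := ZW2 f_RHO f_RMB f_IOI b_THT Pool.Agent.EXC.f_WPG b_NBR Pool.Agent.EXC.f_EXF Pool.Agent.EXC.f_XAU Pool.Agent.EXC.f_INV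

theorem b_ZC0 : ZC0_stmt := ZC0 b_ZW2 Pool.Agent.EXC.A3.g_ZMT b_FIX Pool.Agent.EXC.f_EXF b_NBR

theorem b_ZFN : ZFN_stmt := ZFN Pool.Agent.EXC.f_EXF b_PCL Pool.Agent.EXC.f_TPF Pool.Agent.EXC.f_INV b_NBR

theorem b_ZAD : ZAD_stmt := ZAD Pool.Agent.EXC.f_EXF Pool.Agent.EXC.f_ACT Pool.Agent.EXC.f_COL Pool.Agent.EXC.f_XAU b_NBR

theorem b_ZJC : ZJC_stmt := ZJC Pool.Agent.EXC.A3.g_ZEQ Pool.Agent.EXC.A3.g_ZIN Pool.Agent.EXC.A3.g_ZZM b_FIX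

theorem b_ZKS : ZKS_stmt := ZKS Pool.Agent.EXC.f_EXF Pool.Agent.EXC.f_XAU Pool.Agent.EXC.f_INV b_UNQ b_NBR

theorem b_ZSE : ZSE_stmt := ZSE Pool.Agent.EXC.f_EXF Pool.Agent.EXC.f_XAU b_UNQ b_IMX b_IMT Pool.Agent.EXC.f_TPF b_ZAD b_NBR

theorem b_ZSC : ZSC_stmt := ZSC b_ZSE b_CNN b_NBR b_IMX b_TSY Pool.Agent.EXC.f_EXF b_UNQ Pool.Agent.EXC.f_XAU Pool.Agent.EXC.f_TPF

theorem b_ZSL : ZSL_stmt := ZSL b_IMX Pool.Agent.EXC.f_EXF b_UNQ Pool.Agent.EXC.f_XAU b_NBR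

theorem b_ZM0 : ZM0_stmt := ZM0 Pool.Agent.EXC.A3.g_ZGA b_ZC0 b_ZFN b_IMX Pool.Agent.EXC.f_TPF b_PCL Pool.Agent.EXC.f_EXF Pool.Agent.EXC.f_XAU b_NBR

theorem b_ZM1 : ZM1_stmt := ZM1 Pool.Agent.EXC.A3.g_ZGA b_ZJC b_ZFN b_ZAD b_IMX b_IMT Pool.Agent.EXC.f_TPF b_TSY b_UNQ Pool.Agent.EXC.f_EXF Pool.Agent.EXC.f_XAU Pool.Agent.EXC.f_INV b_NBR

theorem b_ZM2 : ZM2_stmt := ZM2 b_ZW2 Pool.Agent.EXC.A3.g_ZMT Pool.Agent.EXC.A3.g_ZQR Pool.Agent.EXC.A3.g_ZAL Pool.Agent.EXC.A3.g_ZNR b_ZSC b_ZSL b_ZKS Pool.Agent.EXC.f_GRP b_FIX Pool.Agent.EXC.f_EXF Pool.Agent.EXC.f_TPF b_NBR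

theorem b_Z3F : Z3F_stmt := Z3F Pool.Agent.EXC.A3.g_ZGP Pool.Agent.EXC.A3.g_ZPR b_ZM0 b_ZM1 b_ZM2 b_GEO b_PCL Pool.Agent.EXC.f_TPF b_NBR

end Pool.Agent.EXA
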