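import Pool.Agent.helper32.EXB.Spec

/-!
# Project EXB (MP_561ff4_al): the known rows under the hypothesis `IsB`
-/

set_option autoImplicit false

open Finset

namespace Pool.Agent.EXA

open Pool.Agent.EXC

theorem b_NBR : NBR_stmt := fun n C _ j0 θ δ h => Pool.Agent.EXD.f_NBR n C j0 θ _ h.toD

theorem b_TSY : TSY_stmt := fun n C _ F _ j0 θ δ h => Pool.Agent.EXD.f_TSY n C F j0 θ _ h.toD

theorem b_PCL : PCL_stmt := fun n C _ F _ j0 θ δ h => Pool.Agent.EXD.f_PCL n C F j0 θ _ h.toD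

theorem b_UNQ : UNQ_stmt := fun n C _ F _ j0 θ δ h => Pool.Agent.EXD.f_UNQ n C F j0 θ _ h.toD

theorem b_THR : THR_stmt := fun n C _ F _ j0 θ δ h => Pool.Agent.EXD.f_THR n C F j0 θ _ h.toD

theorem b_IMX : IMX_stmt := fun n C _ F _ j0 θ δ h => Pool.Agent.EXD.f_IMX n C F j0 θ _ h.toD

theorem b_IMT : IMT_stmt := fun n C _ F _ j0 θ δ h => Pool.Agent.EXD.f_IMT n C F j0 θ _ h.toD

theorem b_FIX : FIX_stmt := fun n C _ F _ j0 θ δ h => Pool.Agent.EXD.f_FIX n C F j0 θ _ h.toD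

theorem b_GEO : GEO_stmt := fun n C _ F _ j0 θ δ h => Pool.Agent.EXD.f_GEO n C F j0 θ _ h.toD

theorem b_THT : THT_stmt := by
  intro n C _ j0 θ δ hE α β α' β' hα hβ hα' hβ' hab _ hm
  have hn : ∀ v w : Fin n → ℤ, ip C v v = 2 → ip C w w = 2 → ip C v w = -2 → w = -v := by
    intro v w hv hw hvw
    by_contra hne
    have h0 : v + w ≠ 0 := fun h => hne (by rw [eq_neg_iff_add_eq_zero, add_comm]; exact h)
    have h1 := IsC.pos (C := C) (v + w) h0
    rw [ip_add_left, ip_add_right, ip_add_right, ip_comm C w v, hv, hw, hvw] at h1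
    norm_num at h1
  have hWPip : ∀ p q : (Fin n → ℤ) × (Fin n → ℤ), WP C p q → ip C q.1 q.2 = ip C p.1 p.2 := by
    intro p q h
    induction h with
    | refl => rfl
    | tail _ hs ih =>
      obtain ⟨i, rfl⟩ := hs
      rw [← ih]
      unfold rf
      rw [ip_sub_left, ip_sub_right, ip_sub_right, ip_smul_left, ip_smul_left, ip_smul_right, ip_smul_right, ip_sr_self,
        ip_comm C (sr i) _]
      ring
  obtain ⟨β'', hβ'', hW⟩ := (b_NBR n C j0 θ δ hE).2 α α' β hα hα' hβ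
  have h1 := hWPip _ _ hW
  simp only at h1
  have h2 : β'' = -α' := hn _ _ hα' hβ'' (h1.trans hm)
  have h3 : β' = -α' := hn _ _ hα' hβ' (hab.symm.trans hm)
  rw [h3, ← h2]
  exact hW

end Pool.Agent.EXA
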