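import Pool.Agent.helper32.EXD.Facts
import Pool.Agent.helper32.EXA.Facts
import Pool.Agent.helper16.EXC.Spec3

/-!
# Project EXB (MP_561ff4_al): the rows CL3, PLN, CNN, RPX, BPW (`r = p`) and the block `r = 3` of project EXC for a connected simply laced
diagram which contains a chain of type `A₃` (in particular `D₄`)

Copies of the rows of `Pool/Agent/helper17/EXC/Spec.lean` and `Pool/Agent/helper16/EXC/Spec3.lean` with the hypothesis `IsB` instead of `IsE`.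
-/

set_option autoImplicit false

open Finset

namespace Pool.Agent.EXA

open Pool.Agent.EXC

/-- `θ` is a root with `(θ, α_i) = 0` except for one node `j0` with `(θ, α_j0) = 1`; the diagram is connected; `δ 0, δ 1, δ 2` is a chain of nodes
of type `A₃` -/
structure IsB {n : ℕ} (C : Matrix (Fin n) (Fin n) ℤ) (j0 : Fin n) (θ : Fin n → ℤ) (δ : Fin 3 → Fin n) : Prop where
  th2 : ip C θ θ = 2
  thd : ∀ i, ip C θ (sr i) = if i = j0 then 1 else 0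
  con : Conn C Finset.univ
  inc : StrictMono δ
  ch : ∀ a b : Fin 3, C (δ a) (δ b) = if a = b then 2 else if (a : ℕ) + 1 = b ∨ (b : ℕ) + 1 = a then -1 else 0

theorem IsB.toD {n : ℕ} {C : Matrix (Fin n) (Fin n) ℤ} {j0 : Fin n} {θ : Fin n → ℤ} {δ : Fin 3 → Fin n} (h : IsB C j0 θ δ) :
    Pool.Agent.EXD.IsD C j0 θ (fun _ => δ 0) where
  th2 := h.th2
  thd := h.thd
  con := h.con
  ed := ⟨δ 0, δ 1, by rw [h.ch]; decide⟩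
  dm := rfl

theorem IsB.toA {n : ℕ} {C : Matrix (Fin n) (Fin n) ℤ} [IsC C] {j0 : Fin n} {θ : Fin n → ℤ} {δ : Fin 3 → Fin n} (h : IsB C j0 θ δ) :
    IsA C j0 θ δ where
  hb := (Pool.Agent.EXD.f_NBR n C j0 θ _ h.toD).1
  inc := h.inc
  ch := h.ch
  dm := ⟨rfl, rfl⟩

/-- **NBR** -/
def NBR_stmt : Prop := ∀ (n : ℕ) (C : Matrix (Fin n) (Fin n) ℤ) [IsC C] (j0 : Fin n) (θ : Fin n → ℤ) (δ : Fin 3 → Fin n), IsB C j0 θ δ →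
  (∀ α, ip C α α = 2 → ∃ β, ip C β β = 2 ∧ ip C α β = -1) ∧
  ∀ α α' β, ip C α α = 2 → ip C α' α' = 2 → ip C β β = 2 → ∃ β', ip C β' β' = 2 ∧ WP C (α, β) (α', β')

/-- **TSY** -/
def TSY_stmt : Prop := ∀ (n : ℕ) (C : Matrix (Fin n) (Fin n) ℤ) [IsC C] (F : Type) [Field F] (j0 : Fin n) (θ : Fin n → ℤ) (δ : Fin 3 → Fin n),
  IsB C j0 θ δ → ∀ (a b : Lm C F) (m : ℤ), Tp C θ a b m → Tp C θ b a m

/-- **PCL** -/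
def PCL_stmt : Prop := ∀ (n : ℕ) (C : Matrix (Fin n) (Fin n) ℤ) [IsC C] (F : Type) [Field F] (j0 : Fin n) (θ : Fin n → ℤ) (δ : Fin 3 → Fin n),
  IsB C j0 θ δ → ∀ a b : Lm C F, Ex C a → Ex C b → ∃ m, -2 ≤ m ∧ m ≤ 2 ∧ Tp C θ a b m

/-- **UNQ** -/
def UNQ_stmt : Prop := ∀ (n : ℕ) (C : Matrix (Fin n) (Fin n) ℤ) [IsC C] (F : Type) [Field F] (j0 : Fin n) (θ : Fin n → ℤ) (δ : Fin 3 → Fin n),
  IsB C j0 θ δ → ∀ (a b : Lm C F) (t : F) (h : Lm C F ≃ₗ[F] Lm C F), Ex C a → Ex C b → IsX C a 1 h → IsX C b t h → a = t • b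

/-- **THR** -/
def THR_stmt : Prop := ∀ (n : ℕ) (C : Matrix (Fin n) (Fin n) ℤ) [IsC C] (F : Type) [Field F] (j0 : Fin n) (θ : Fin n → ℤ) (δ : Fin 3 → Fin n),
  IsB C j0 θ δ → ∀ a b : Lm C F,
  (Tp C θ a b 1 → ∃ d, Ex C d ∧ (∀ c : F, d ≠ c • a) ∧ (∀ c : F, d ≠ c • b) ∧ ∀ h, (∃ t, IsX C d t h) →
    ∃ h1 h2, (∃ t, IsX C a t h1) ∧ (∃ t, IsX C b t h2) ∧ h = h1 * h2) ∧
  (Tp C θ a b 0 → ∀ d, Ex C d → (∃ h h1 h2, IsX C d 1 h ∧ (∃ t, IsX C a t h1) ∧ (∃ t, IsX C b t h2) ∧ h = h1 * h2) →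
    (∃ c : F, d = c • a) ∨ ∃ c : F, d = c • b)

/-- **IMX** -/
def IMX_stmt : Prop := ∀ (n : ℕ) (C : Matrix (Fin n) (Fin n) ℤ) [IsC C] (F : Type) [Field F] (j0 : Fin n) (θ : Fin n → ℤ) (δ : Fin 3 → Fin n),
  IsB C j0 θ δ → ∀ x : MulAut (EG C F), RA C x → (∀ a, Ex C a → ∃ b, Ex C b ∧ Im C x a b) ∧
  (∀ a a' b, Ex C a → Ex C a' → Ex C b → Im C x a b → Im C x a' b → ∃ c : F, c ≠ 0 ∧ a' = c • a) ∧
  (∀ a b b', Ex C a → Ex C b → Ex C b' → Im C x a b → Im C x a b' → ∃ c : F, c ≠ 0 ∧ b' = c • b) ∧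
  ∀ (a b : Lm C F) (c c' : F), Ex C a → Ex C b → c ≠ 0 → c' ≠ 0 → Im C x a b → Im C x (c • a) (c' • b)

/-- **IMT** -/
def IMT_stmt : Prop := ∀ (n : ℕ) (C : Matrix (Fin n) (Fin n) ℤ) [IsC C] (F : Type) [Field F] (j0 : Fin n) (θ : Fin n → ℤ) (δ : Fin 3 → Fin n),
  IsB C j0 θ δ → ∀ x : MulAut (EG C F), RA C x → ∀ a b a' b' : Lm C F, Ex C a' → Ex C b' → Im C x a a' → Im C x b b' → Tp C θ a b 1 → Tp C θ a' b' 1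

/-- **FIX** -/
def FIX_stmt : Prop := ∀ (n : ℕ) (C : Matrix (Fin n) (Fin n) ℤ) [IsC C] (F : Type) [Field F] (j0 : Fin n) (θ : Fin n → ℤ) (δ : Fin 3 → Fin n),
  IsB C j0 θ δ → (∀ x : MulAut (EG C F), (∀ a, Ex C a → Im C x a a) → x = 1) ∧ ∀ z : EG C F, (∀ g, z * g = g * z) → z = 1

/-- **GEO** -/
def GEO_stmt : Prop := ∀ (n : ℕ) (C : Matrix (Fin n) (Fin n) ℤ) [IsC C] (F : Type) [Field F] (j0 : Fin n) (θ : Fin n → ℤ) (δ : Fin 3 → Fin n),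
  IsB C j0 θ δ → ∀ x : MulAut (EG C F), RA C x → x ≠ 1 → ∃ a a' : Lm C F, ∃ m : ℤ, Ex C a ∧ Ex C a' ∧ Im C x a a' ∧ Tp C θ a a' m ∧
    (m = -2 ∨ m = -1 ∨ m = 0)

/-- the Weyl group is transitive on the pairs `(α, -α)` -/
def THT_stmt : Prop := ∀ (n : ℕ) (C : Matrix (Fin n) (Fin n) ℤ) [IsC C] (j0 : Fin n) (θ : Fin n → ℤ) (δ : Fin 3 → Fin n), IsB C j0 θ δ →
  ∀ α β α' β' : Fin n → ℤ, ip C α α = 2 → ip C β β = 2 → ip C α' α' = 2 → ip C β' β' = 2 → ip C α β = ip C α' β' →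
  (ip C α β = -2 ∨ ip C α β = -1 ∨ ip C α β = 0) → ip C α β = -2 → WP C (α, β) (α', β')

/-- **CL3** -/
def CL3_stmt : Prop := ∀ (n : ℕ) (C : Matrix (Fin n) (Fin n) ℤ) [IsC C] (F : Type) [Field F] (j0 : Fin n) (θ : Fin n → ℤ) (δ : Fin 3 → Fin n),
  IsB C j0 θ δ → ∃ ι : (Fin 3 → F) →ₗ[F] Lm C F, Function.Injective ι ∧ (∀ v, v ≠ 0 → Ex C (ι v)) ∧
    (∀ v w, LinearIndependent F ![v, w] → Tp C θ (ι v) (ι w) 1) ∧ ∀ v w u, xe C (ι v) 1 (xe C (ι w) 1 u) = xe C (ι (v + w)) 1 u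

/-- **PLN** -/
def PLN_stmt : Prop := ∀ (n : ℕ) (C : Matrix (Fin n) (Fin n) ℤ) [IsC C] (F : Type) [Field F] [Finite F] (j0 : Fin n) (θ : Fin n → ℤ)
  (δ : Fin 3 → Fin n), IsB C j0 θ δ → ∀ x : MulAut (EG C F), RA C x →
  ∃ a a' : Lm C F, ∃ m : ℤ, Ex C a ∧ Ex C a' ∧ Im C x a a' ∧ Tp C θ a a' m ∧ m ≠ -2

/-- **CNN** -/
def CNN_stmt : Prop := ∀ (n : ℕ) (C : Matrix (Fin n) (Fin n) ℤ) [IsC C] (F : Type) [Field F] (j0 : Fin n) (θ : Fin n → ℤ) (δ : Fin 3 → Fin n),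
  IsB C j0 θ δ → ∀ P : Lm C F → Prop, (∀ a (c : F), c ≠ 0 → P a → P (c • a)) → (∀ a b, Tp C θ a b 1 → P a → P b) → (∀ a b, Tp C θ a b 1 → P b → P a) →
  (∃ a, Ex C a ∧ P a) → ∀ b, Ex C b → P b

/-- **RPX** -/
def RPX_stmt : Prop := ∀ (n : ℕ) (C : Matrix (Fin n) (Fin n) ℤ) [IsC C] (F : Type) [Field F] [Finite F] (j0 : Fin n) (θ : Fin n → ℤ)
  (δ : Fin 3 → Fin n), IsB C j0 θ δ → ∀ x : MulAut (EG C F), RA C x → x ≠ 1 →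
  ∃ a a' : Lm C F, ∃ m : ℤ, Ex C a ∧ Ex C a' ∧ Im C x a a' ∧ Tp C θ a a' m ∧ m ≠ -2 ∧
    ∃ h : EG C F, (∃ t, IsX C a t (h : Lm C F ≃ₗ[F] Lm C F)) ∧ x h ≠ h

/-- **BPW** -/
def BPW_stmt : Prop := ∀ (n : ℕ) (C : Matrix (Fin n) (Fin n) ℤ) [IsC C] (F : Type) [Field F] [Finite F] (j0 : Fin n) (θ : Fin n → ℤ)
  (δ : Fin 3 → Fin n), IsB C j0 θ δ → ∀ x : MulAut (EG C F), RA C x → x ≠ 1 → ∀ p : ℕ, p.Prime → CharP F p → 2 ∈ Pool.Agent.GS.CSet p x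

/-- **ZW2** -/
def ZW2_stmt : Prop := ∀ (n : ℕ) (C : Matrix (Fin n) (Fin n) ℤ) [IsC C] (F : Type) [Field F] (j0 : Fin n) (θ : Fin n → ℤ) (δ : Fin 3 → Fin n),
  IsB C j0 θ δ → ∀ a b : Lm C F, Tp C θ a b (-2) → ∀ h : Bool × F → EG C F,
  (∀ p, IsX C (if p.1 then b else a) p.2 ((h p : EG C F) : Lm C F ≃ₗ[F] Lm C F)) → ∀ l : List (Bool × F), (l.map h).prod = 1 →
  (l.map fun p => if p.1 then !![1, 0; fm C a b * p.2, 1] else !![1, -p.2; 0, 1]).prod = (1 : Matrix (Fin 2) (Fin 2) F)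

/-- **ZC0** -/
def ZC0_stmt : Prop := ∀ (n : ℕ) (C : Matrix (Fin n) (Fin n) ℤ) [IsC C] (F : Type) [Field F] (j0 : Fin n) (θ : Fin n → ℤ) (δ : Fin 3 → Fin n),
  IsB C j0 θ δ → ∀ (b f : Lm C F) (t t' s s' : EG C F), Tp C θ b f (-2) → fm C b f = -1 →
  IsX C b 1 (t' : Lm C F ≃ₗ[F] Lm C F) → IsX C f 1 (s : Lm C F ≃ₗ[F] Lm C F) →
  t * t' = t' * t → t * s = s * t → t' * s' = s' * t' → s * s' = s' * s →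
  ∀ m : ℕ, (MulAut.conj ((t' * t⁻¹) * (s' * s⁻¹))) ^ m = 1 → 3 ∣ m

/-- **ZFN** -/
def ZFN_stmt : Prop := ∀ (n : ℕ) (C : Matrix (Fin n) (Fin n) ℤ) [IsC C] (F : Type) [Field F] (j0 : Fin n) (θ : Fin n → ℤ) (δ : Fin 3 → Fin n),
  IsB C j0 θ δ → ∀ a b : Lm C F,
  (Tp C θ a b 0 → ∃ f, Ex C f ∧ Tp C θ a f 0 ∧ Tp C θ b f (-2) ∧ fm C b f = -1) ∧
  (Tp C θ a b (-1) → ∃ f, Ex C f ∧ Tp C θ a f 1 ∧ Tp C θ b f (-2) ∧ fm C b f = -1)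

/-- **ZAD** -/
def ZAD_stmt : Prop := ∀ (n : ℕ) (C : Matrix (Fin n) (Fin n) ℤ) [IsC C] (F : Type) [Field F] (j0 : Fin n) (θ : Fin n → ℤ) (δ : Fin 3 → Fin n),
  IsB C j0 θ δ → ∀ a b : Lm C F, Tp C θ a b 1 → ∀ u v : F, (u ≠ 0 ∨ v ≠ 0) → Ex C (u • a + v • b) ∧
  ∀ g h : Lm C F ≃ₗ[F] Lm C F, IsX C a u g → IsX C b v h → IsX C (u • a + v • b) 1 (g * h)

/-- **ZJC** -/
def ZJC_stmt : Prop := ∀ (n : ℕ) (C : Matrix (Fin n) (Fin n) ℤ) [IsC C] (F : Type) [Field F] (j0 : Fin n) (θ : Fin n → ℤ) (δ : Fin 3 → Fin n),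
  IsB C j0 θ δ → (3 : F) ≠ 0 → ∀ (e1 e2 f1 f2 : Lm C F) (t t' s s' : EG C F), S3 C e1 e2 f1 f2 →
  IsX C e1 1 (t : Lm C F ≃ₗ[F] Lm C F) → IsX C e2 1 (t' : Lm C F ≃ₗ[F] Lm C F) → IsX C f2 1 (s : Lm C F ≃ₗ[F] Lm C F) →
  IsX C f1 (-1) (s' : Lm C F ≃ₗ[F] Lm C F) → ∀ m : ℕ, (MulAut.conj ((t' * t⁻¹) ^ 2 * ((s' * s⁻¹) ^ 2)⁻¹)) ^ m = 1 → 3 ∣ m

/-- **ZKS** -/
def ZKS_stmt : Prop := ∀ (n : ℕ) (C : Matrix (Fin n) (Fin n) ℤ) [IsC C] (F : Type) [Field F] (j0 : Fin n) (θ : Fin n → ℤ) (δ : Fin 3 → Fin n),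
  IsB C j0 θ δ → ∀ (x : MulAut (EG C F)) (σ : F ≃+* F) (a b : Lm C F) (c d : F), Ex C a → Ex C b → fm C a b ≠ 0 → c ≠ 0 → d ≠ 0 →
  SL C x σ a b c → SL C x σ b a d → σ (fm C a b) = fm C a b * c * d

/-- **ZSE** -/
def ZSE_stmt : Prop := ∀ (n : ℕ) (C : Matrix (Fin n) (Fin n) ℤ) [IsC C] (F : Type) [Field F] (j0 : Fin n) (θ : Fin n → ℤ) (δ : Fin 3 → Fin n),
  IsB C j0 θ δ → ∀ x : MulAut (EG C F), RA C x → ∀ a b a2 b2 : Lm C F, Ex C a → Ex C b → Ex C a2 → Ex C b2 → Im C x a b → Im C x a2 b2 →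
  Tp C θ a a2 1 → ∃ σ : F ≃+* F, (∃ c, c ≠ 0 ∧ SL C x σ a b c) ∧ ∃ c, c ≠ 0 ∧ SL C x σ a2 b2 c

/-- **ZSC** -/
def ZSC_stmt : Prop := ∀ (n : ℕ) (C : Matrix (Fin n) (Fin n) ℤ) [IsC C] (F : Type) [Field F] (j0 : Fin n) (θ : Fin n → ℤ) (δ : Fin 3 → Fin n),
  IsB C j0 θ δ → ∀ x : MulAut (EG C F), RA C x → ∃ σ : F ≃+* F, ∀ a b : Lm C F, Ex C a → Ex C b → Im C x a b → ∃ c, c ≠ 0 ∧ SL C x σ a b c

/-- **ZSL** -/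
def ZSL_stmt : Prop := ∀ (n : ℕ) (C : Matrix (Fin n) (Fin n) ℤ) [IsC C] (F : Type) [Field F] (j0 : Fin n) (θ : Fin n → ℤ) (δ : Fin 3 → Fin n),
  IsB C j0 θ δ → ∀ x : MulAut (EG C F), RA C x → ∀ σ : F ≃+* F,
  (∀ a b : Lm C F, Ex C a → Ex C b → Im C x a b → ∃ c, c ≠ 0 ∧ SL C x σ a b c) → ∀ ℓ : ℕ, x ^ ℓ = 1 → ∀ u, (⇑σ)^[ℓ] u = u

/-- **ZM0** -/
def ZM0_stmt : Prop := ∀ (n : ℕ) (C : Matrix (Fin n) (Fin n) ℤ) [IsC C] (F : Type) [Field F] [Finite F] (j0 : Fin n) (θ : Fin n → ℤ)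
  (δ : Fin 3 → Fin n), IsB C j0 θ δ → ∀ x : MulAut (EG C F), RA C x →
  (∀ (c c' : Lm C F) (m : ℤ), Ex C c → Ex C c' → Im C x c c' → Tp C θ c c' m → 0 ≤ m) →
  ∀ a b : Lm C F, Ex C a → Ex C b → Im C x a b → Tp C θ a b 0 → 3 ∈ Pool.Agent.GS.CSet 3 x

/-- **ZM1** -/
def ZM1_stmt : Prop := ∀ (n : ℕ) (C : Matrix (Fin n) (Fin n) ℤ) [IsC C] (F : Type) [Field F] [Finite F] (j0 : Fin n) (θ : Fin n → ℤ)
  (δ : Fin 3 → Fin n), IsB C j0 θ δ → (3 : F) ≠ 0 → ∀ x : MulAut (EG C F), RA C x →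
  (∀ c c' : Lm C F, Ex C c → Ex C c' → Im C x c c' → fm C c c' = 0) →
  ∀ a b : Lm C F, Ex C a → Ex C b → Im C x a b → Tp C θ a b (-1) → 3 ∈ Pool.Agent.GS.CSet 3 x

/-- **ZM2** -/
def ZM2_stmt : Prop := ∀ (n : ℕ) (C : Matrix (Fin n) (Fin n) ℤ) [IsC C] (F : Type) [Field F] [Finite F] (j0 : Fin n) (θ : Fin n → ℤ)
  (δ : Fin 3 → Fin n), IsB C j0 θ δ → ¬ 3 ∣ Nat.card F → ∀ x : MulAut (EG C F), RA C x → (orderOf x).Prime →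
  ∀ a b : Lm C F, Ex C a → Ex C b → Im C x a b → Tp C θ a b (-2) → 2 ∈ Pool.Agent.GS.CSet 3 x

/-- **Z3F** -/
def Z3F_stmt : Prop := ∀ (n : ℕ) (C : Matrix (Fin n) (Fin n) ℤ) [IsC C] (F : Type) [Field F] [Finite F] (j0 : Fin n) (θ : Fin n → ℤ)
  (δ : Fin 3 → Fin n), IsB C j0 θ δ → ¬ 3 ∣ Nat.card F → ∀ x : MulAut (EG C F), RA C x → x ≠ 1 →
  ∃ k ∈ Pool.Agent.GS.CSet 3 x, k ≤ 3

end Pool.Agent.EXA
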